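import Mathlib

/-!
Counting tuples in boxes: partitions of boxes, Jensen, and the density lemma for blocks.
-/

set_option autoImplicit false
set_option linter.unusedSectionVars false

namespace Pool.Agent.helper890_gap

open Finset

section Real

/-- Jensen for finitely many blocks: `P (Z/P)^K ≤ ∑ p_s (Z_s/p_s)^K`. -/
theorem jensen_blocks {α : Type} (S : Finset α) (p Z : α → ℝ) (K : ℕ)
    (hp : ∀ s ∈ S, 0 ≤ p s) (hZ : ∀ s ∈ S, 0 ≤ Z s) (h0 : ∀ s ∈ S, p s = 0 → Z s = 0) :
    (∑ s ∈ S, p s) * ((∑ s ∈ S, Z s) / (∑ s ∈ S, p s)) ^ K ≤ ∑ s ∈ S, p s * (Z s / p s) ^ K := by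
  set P := ∑ s ∈ S, p s with hP
  have hP0 : 0 ≤ P := Finset.sum_nonneg hp
  rcases hP0.eq_or_lt with h | h
  · rw [← h]
    simp only [zero_mul]
    exact Finset.sum_nonneg fun s hs => mul_nonneg (hp s hs) (pow_nonneg (div_nonneg (hZ s hs) (hp s hs)) _)
  · have key := Real.pow_arith_mean_le_arith_mean_pow S (fun s => p s / P) (fun s => Z s / p s)
      (fun s hs => div_nonneg (hp s hs) hP0) (by rw [← Finset.sum_div]; exact div_self h.ne')
      (fun s hs => div_nonneg (hZ s hs) (hp s hs)) K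
    have e1 : ∑ s ∈ S, p s / P * (Z s / p s) = (∑ s ∈ S, Z s) / P := by
      rw [Finset.sum_div]
      refine Finset.sum_congr rfl fun s hs => ?_
      by_cases hs0 : p s = 0
      · rw [hs0, h0 s hs hs0]; simp
      · field_simp
    have e2 : ∑ s ∈ S, p s / P * (Z s / p s) ^ K = (∑ s ∈ S, p s * (Z s / p s) ^ K) / P := by
      rw [Finset.sum_div]
      refine Finset.sum_congr rfl fun s hs => ?_
      ring
    rw [e1, e2, le_div_iff₀ h] at key
    linarith [mul_comm P (((∑ s ∈ S, Z s) / P) ^ K)]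

/-- If no block has a much larger weight, then every block of proportion `ρ` has almost the
average density. -/
theorem block_dens {α : Type} [DecidableEq α] (S : Finset α) (p Z : α → ℝ) (K : ℕ) (ρ C : ℝ)
    (hp : ∀ s ∈ S, 0 ≤ p s) (h0 : ∀ s ∈ S, p s = 0 → Z s = 0) (hK : 1 ≤ K)
    (hZ : 0 < (∑ s ∈ S, Z s) / (∑ s ∈ S, p s)) (hC : 0 ≤ C) (hρ : 4 * (S.card : ℝ) ≤ ρ * C)
    (hno : ∀ s ∈ S, p s * (Z s / p s) ^ K <
      4 * ((∑ s ∈ S, p s) * ((∑ s ∈ S, Z s) / (∑ s ∈ S, p s)) ^ K))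
    (s₀ : α) (hs₀ : s₀ ∈ S) (hP : ρ * (∑ s ∈ S, p s) ≤ p s₀) :
    (1 - C / K) * ((∑ s ∈ S, Z s) / (∑ s ∈ S, p s)) * p s₀ ≤ Z s₀ := by
  set P := ∑ s ∈ S, p s with hPdef
  set z := (∑ s ∈ S, Z s) / P with hz
  have hP0 : 0 ≤ P := Finset.sum_nonneg hp
  have hPpos : 0 < P := by
    rcases hP0.eq_or_lt with h | h
    · exfalso; rw [hz, ← h] at hZ; simp at hZ
    · exact h
  have hKr : (0 : ℝ) < K := by exact_mod_cast hK
  by_contra hcon
  push Not at hcon
  have hsum : ∑ s ∈ S, (Z s - z * p s) = 0 := by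
    rw [Finset.sum_sub_distrib, ← Finset.mul_sum, hz]
    field_simp
    ring
  have hsplit : ∑ s ∈ S.erase s₀, (Z s - z * p s) = z * p s₀ - Z s₀ := by
    have := Finset.add_sum_erase S (fun s => Z s - z * p s) hs₀
    linarith
  have hbig : (4 / K * z * P) * (S.card : ℝ) < ∑ s ∈ S.erase s₀, (Z s - z * p s) := by
    rw [hsplit]
    have h1 : C / K * z * p s₀ < z * p s₀ - Z s₀ := by nlinarith
    have h2 : C / K * z * (ρ * P) ≤ C / K * z * p s₀ :=
      mul_le_mul_of_nonneg_left hP (mul_nonneg (div_nonneg hC hKr.le) hZ.le)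
    have h3 : (4 / K * z * P) * (S.card : ℝ) ≤ C / K * z * (ρ * P) := by
      have e1 : (4 / K * z * P) * (S.card : ℝ) = (z * P / K) * (4 * (S.card : ℝ)) := by ring
      have e2 : C / K * z * (ρ * P) = (z * P / K) * (ρ * C) := by ring
      rw [e1, e2]
      exact mul_le_mul_of_nonneg_left hρ (div_nonneg (mul_nonneg hZ.le hP0) hKr.le)
    linarith
  obtain ⟨s, hs, hsb⟩ : ∃ s ∈ S.erase s₀, 4 / K * z * P < Z s - z * p s := by
    by_contra hall
    push Not at hall
    have h1 : ∑ s ∈ S.erase s₀, (Z s - z * p s) ≤ (S.erase s₀).card • (4 / K * z * P) :=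
      Finset.sum_le_card_nsmul _ _ _ hall
    have h2 : ((S.erase s₀).card : ℝ) ≤ S.card := by exact_mod_cast Finset.card_erase_le
    rw [nsmul_eq_mul] at h1
    have h3 : 0 ≤ 4 / K * z * P := mul_nonneg (mul_nonneg (by positivity) hZ.le) hP0
    nlinarith
  have hsS : s ∈ S := Finset.mem_of_mem_erase hs
  have hps : 0 < p s := by
    rcases (hp s hsS).eq_or_lt with h | h
    · exfalso
      have := h0 s hsS h.symm
      rw [this, ← h] at hsb
      have h3 : 0 ≤ 4 / K * z * P := mul_nonneg (mul_nonneg (by positivity) hZ.le) hP0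
      simp at hsb
      linarith
    · exact h
  have hdens : z * (1 + 4 * P / p s / K) ≤ Z s / p s := by
    rw [le_div_iff₀ hps]
    have : z * (1 + 4 * P / p s / K) * p s = z * p s + 4 / K * z * P := by
      field_simp
    rw [this]; linarith
  have hbern : 1 + 4 * P / p s ≤ (1 + 4 * P / p s / K) ^ K := by
    have h1 := one_add_mul_le_pow (a := 4 * P / p s / K) (by
      have : 0 ≤ 4 * P / p s / K := by positivity
      linarith) K
    have h2 : (K : ℝ) * (4 * P / p s / K) = 4 * P / p s := by field_simp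
    rw [h2] at h1
    exact h1
  have h5 : z ^ K * (1 + 4 * P / p s) ≤ (Z s / p s) ^ K := by
    calc z ^ K * (1 + 4 * P / p s) ≤ z ^ K * (1 + 4 * P / p s / K) ^ K :=
          mul_le_mul_of_nonneg_left hbern (by positivity)
      _ = (z * (1 + 4 * P / p s / K)) ^ K := by rw [mul_pow]
      _ ≤ (Z s / p s) ^ K := pow_le_pow_left₀ (by positivity) hdens K
  have h6 : p s * (z ^ K * (1 + 4 * P / p s)) ≤ p s * (Z s / p s) ^ K :=
    mul_le_mul_of_nonneg_left h5 hps.le
  have h7 : p s * (z ^ K * (1 + 4 * P / p s)) = z ^ K * p s + 4 * (P * z ^ K) := by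
    field_simp
  have h8 := hno s hsS
  have h9 : 0 ≤ z ^ K * p s := by positivity
  linarith

/-- Markov-type lemma: many indices have a value at least half of the average. -/
theorem markov_half {α : Type} (S : Finset α) (f : α → ℝ) (M δ : ℝ) (hM : 0 < M)
    (hf : ∀ a ∈ S, f a ≤ M) (hsum : δ * ((S.card : ℝ) * M) ≤ ∑ a ∈ S, f a) :
    δ / 2 * (S.card : ℝ) ≤ ((S.filter (fun a => δ / 2 * M ≤ f a)).card : ℝ) := by
  classical
  have h1 : ∑ a ∈ S, f a ≤ ∑ a ∈ S, (δ / 2 * M + (if δ / 2 * M ≤ f a then M * (1 - δ / 2) else 0)) := by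
    refine Finset.sum_le_sum fun a ha => ?_
    split_ifs with h
    · have := hf a ha
      nlinarith
    · push Not at h
      linarith
  rw [Finset.sum_add_distrib, Finset.sum_const, nsmul_eq_mul, ← Finset.sum_filter, Finset.sum_const,
    nsmul_eq_mul] at h1
  have h3 : (0 : ℝ) ≤ ((S.filter (fun a => δ / 2 * M ≤ f a)).card : ℝ) := by positivity
  have h2 : δ / 2 * ((S.card : ℝ) * M) ≤ ((S.filter (fun a => δ / 2 * M ≤ f a)).card : ℝ) * (M * (1 - δ / 2)) := by
    nlinarith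
  have h4 : δ / 2 * (S.card : ℝ) ≤ ((S.filter (fun a => δ / 2 * M ≤ f a)).card : ℝ) * (1 - δ / 2) := by
    have : (δ / 2 * (S.card : ℝ)) * M ≤ (((S.filter (fun a => δ / 2 * M ≤ f a)).card : ℝ) * (1 - δ / 2)) * M := by
      nlinarith
    exact le_of_mul_le_mul_right this hM
  by_cases hδ : 0 ≤ δ
  · nlinarith
  · push Not at hδ
    have : δ / 2 * (S.card : ℝ) ≤ 0 := by
      apply mul_nonpos_of_nonpos_of_nonneg
      · linarith
      · positivity
    linarith

end Real

section Boxes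

variable {ι : Type} [Fintype ι] [DecidableEq ι]

open Classical in
/-- the number of tuples of the box `A` satisfying `T`, as a real number -/
noncomputable def cnt (T : (ι → ℕ) → Prop) (A : ι → Finset ℕ) : ℝ :=
  (((Fintype.piFinset A).filter T).card : ℝ)

/-- the number of tuples of the box `A` -/
noncomputable def vol (A : ι → Finset ℕ) : ℝ := ∏ i, ((A i).card : ℝ)

theorem cnt_nonneg (T : (ι → ℕ) → Prop) (A : ι → Finset ℕ) : 0 ≤ cnt T A := by
  unfold cnt; positivity

theorem vol_nonneg (A : ι → Finset ℕ) : 0 ≤ vol A := by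
  unfold vol; positivity

theorem vol_eq_card (A : ι → Finset ℕ) : vol A = ((Fintype.piFinset A).card : ℝ) := by
  unfold vol; rw [Fintype.card_piFinset]; push_cast; rfl

theorem vol_eq_cnt (A : ι → Finset ℕ) : vol A = cnt (fun _ => True) A := by
  rw [vol_eq_card]; unfold cnt; simp

theorem cnt_le_vol (T : (ι → ℕ) → Prop) (A : ι → Finset ℕ) : cnt T A ≤ vol A := by
  classical
  rw [vol_eq_card]; unfold cnt
  exact_mod_cast Finset.card_filter_le _ _

theorem cnt_eq_zero_of_vol (T : (ι → ℕ) → Prop) (A : ι → Finset ℕ) (h : vol A = 0) : cnt T A = 0 :=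
  le_antisymm (h ▸ cnt_le_vol T A) (cnt_nonneg T A)

theorem vol_pos_of_cnt (T : (ι → ℕ) → Prop) (A : ι → Finset ℕ) (h : 0 < cnt T A) : 0 < vol A :=
  lt_of_lt_of_le h (cnt_le_vol T A)

/-- partition of a box according to classes of the coordinates -/
theorem cnt_partition {κ : Type} [Fintype κ] [DecidableEq κ] (T : (ι → ℕ) → Prop)
    (A : ι → Finset ℕ) (cl : ι → ℕ → κ) :
    cnt T A = ∑ e : ι → κ, cnt T (fun i => (A i).filter (fun a => cl i a = e i)) := by
  classical
  unfold cnt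
  rw [← Nat.cast_sum]
  congr 1
  rw [Finset.card_eq_sum_card_fiberwise (f := fun a i => cl i (a i)) (t := Finset.univ)
    (fun _ _ => Finset.mem_coe.2 (Finset.mem_univ _))]
  refine Finset.sum_congr rfl fun e _ => ?_
  congr 1
  ext a
  simp only [Finset.mem_filter, Fintype.mem_piFinset, funext_iff]
  constructor
  · rintro ⟨⟨h1, h2⟩, h3⟩
    exact ⟨fun i => ⟨h1 i, h3 i⟩, h2⟩
  · rintro ⟨h1, h2⟩
    exact ⟨⟨fun i => (h1 i).1, h2⟩, fun i => (h1 i).2⟩

theorem vol_partition {κ : Type} [Fintype κ] [DecidableEq κ]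
    (A : ι → Finset ℕ) (cl : ι → ℕ → κ) :
    vol A = ∑ e : ι → κ, vol (fun i => (A i).filter (fun a => cl i a = e i)) := by
  rw [vol_eq_cnt, cnt_partition _ A cl]
  exact Finset.sum_congr rfl fun e _ => (vol_eq_cnt _).symm

/-- density of `T` in the box `A` -/
noncomputable def dens (T : (ι → ℕ) → Prop) (A : ι → Finset ℕ) : ℝ := cnt T A / vol A

theorem dens_nonneg (T : (ι → ℕ) → Prop) (A : ι → Finset ℕ) : 0 ≤ dens T A :=
  div_nonneg (cnt_nonneg _ _) (vol_nonneg _)

theorem dens_le_one (T : (ι → ℕ) → Prop) (A : ι → Finset ℕ) : dens T A ≤ 1 := by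
  unfold dens
  rcases (vol_nonneg A).eq_or_lt with h | h
  · rw [← h]; simp
  · rw [div_le_one h]; exact cnt_le_vol T A

theorem dens_mul_vol (T : (ι → ℕ) → Prop) (A : ι → Finset ℕ) : dens T A * vol A = cnt T A := by
  unfold dens
  rcases (vol_nonneg A).eq_or_lt with h | h
  · rw [← h, cnt_eq_zero_of_vol T A h.symm]; simp
  · field_simp

/-- the potential -/
noncomputable def Phi (T : (ι → ℕ) → Prop) (K v : ℕ) (A : ι → Finset ℕ) : ℝ :=
  vol A * dens T A ^ K / ((3 : ℝ) ^ v) ^ (Fintype.card ι)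

theorem Phi_nonneg (T : (ι → ℕ) → Prop) (K v : ℕ) (A : ι → Finset ℕ) : 0 ≤ Phi T K v A := by
  unfold Phi
  exact div_nonneg (mul_nonneg (vol_nonneg _) (pow_nonneg (dens_nonneg _ _) _)) (by positivity)

theorem Phi_le_vol (T : (ι → ℕ) → Prop) (K v : ℕ) (A : ι → Finset ℕ) :
    Phi T K v A * ((3 : ℝ) ^ v) ^ (Fintype.card ι) ≤ vol A := by
  unfold Phi
  rw [div_mul_cancel₀ _ (by positivity)]
  calc vol A * dens T A ^ K ≤ vol A * 1 :=
        mul_le_mul_of_nonneg_left (pow_le_one₀ (dens_nonneg _ _) (dens_le_one _ _)) (vol_nonneg _)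
    _ = vol A := mul_one _

theorem vol_le (A : ι → Finset ℕ) (v : ℕ) (hA : ∀ i, ((A i).card : ℝ) ≤ 3 ^ v) :
    vol A ≤ ((3 : ℝ) ^ v) ^ (Fintype.card ι) := by
  unfold vol
  calc ∏ i, ((A i).card : ℝ) ≤ ∏ _i : ι, (3 : ℝ) ^ v :=
        Finset.prod_le_prod (fun _ _ => by positivity) (fun i _ => hA i)
    _ = _ := by simp

theorem Phi_le_dens (T : (ι → ℕ) → Prop) (K v : ℕ) (A : ι → Finset ℕ)
    (hA : ∀ i, ((A i).card : ℝ) ≤ 3 ^ v) :
    Phi T K v A ≤ dens T A ^ K := by
  unfold Phi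
  rw [div_le_iff₀ (by positivity), mul_comm]
  exact mul_le_mul_of_nonneg_left (vol_le A v hA) (pow_nonneg (dens_nonneg _ _) _)

theorem Phi_le_one (T : (ι → ℕ) → Prop) (K v : ℕ) (A : ι → Finset ℕ)
    (hA : ∀ i, ((A i).card : ℝ) ≤ 3 ^ v) :
    Phi T K v A ≤ 1 :=
  (Phi_le_dens T K v A hA).trans (pow_le_one₀ (dens_nonneg _ _) (dens_le_one _ _))

/-- averaging over a partition with three classes in each coordinate -/
theorem Phi_sum_thirds (T : (ι → ℕ) → Prop) (K v : ℕ) (A : ι → Finset ℕ) (cl : ι → ℕ → Fin 3) :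
    (3 : ℝ) ^ (Fintype.card ι) * Phi T K (v + 1) A ≤
      ∑ e : ι → Fin 3, Phi T K v (fun i => (A i).filter (fun a => cl i a = e i)) := by
  have h := jensen_blocks (Finset.univ : Finset (ι → Fin 3))
    (fun e => vol (fun i => (A i).filter (fun a => cl i a = e i)))
    (fun e => cnt T (fun i => (A i).filter (fun a => cl i a = e i))) K
    (fun e _ => vol_nonneg _) (fun e _ => cnt_nonneg _ _)
    (fun e _ h => cnt_eq_zero_of_vol _ _ h)
  rw [← vol_partition A cl, ← cnt_partition T A cl] at h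
  have h1 : (3 : ℝ) ^ (Fintype.card ι) * Phi T K (v + 1) A =
      vol A * (cnt T A / vol A) ^ K / ((3 : ℝ) ^ v) ^ (Fintype.card ι) := by
    unfold Phi dens
    rw [pow_succ, mul_pow]
    field_simp
  rw [h1]
  have h2 : ∑ e : ι → Fin 3, Phi T K v (fun i => (A i).filter (fun a => cl i a = e i)) =
      (∑ e : ι → Fin 3, vol (fun i => (A i).filter (fun a => cl i a = e i)) *
        (cnt T (fun i => (A i).filter (fun a => cl i a = e i)) /
          vol (fun i => (A i).filter (fun a => cl i a = e i))) ^ K) /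
            ((3 : ℝ) ^ v) ^ (Fintype.card ι) := by
    rw [Finset.sum_div]; rfl
  rw [h2]
  exact div_le_div_of_nonneg_right h (by positivity)

end Boxes

end Pool.Agent.helper890_gap
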