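import Mathlib

/-!
Partial realisations of the prescribed order of the gaps.
-/

set_option autoImplicit false
set_option linter.unusedSectionVars false

namespace Pool.Agent.helper890_gap

open Finset

/-- the gap `g` (between the places `g` and `g+1` of `0, ..., t-1`) is smaller than the adjacent
gaps, where `rk` is the rank of the gaps in decreasing order -/
def LocMin (t : ℕ) (rk : ℕ → ℕ) (g : ℕ) : Prop :=
  ∀ h, h + 1 < t → (h + 1 = g ∨ g + 1 = h) → rk h < rk g

open Classical in
/-- the set of the local minima -/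
noncomputable def LM (t : ℕ) (rk : ℕ → ℕ) : Finset ℕ := (range (t - 1)).filter (LocMin t rk)

/-- the possible places of a symbol: a vertex or a label -/
def plc {Λ : Type} (A : Λ → Finset ℕ) : ℕ ⊕ Λ → Finset ℕ
  | Sum.inl a => {a}
  | Sum.inr l => A l

/-- A partial realisation with colour `c`, in which the gaps of rank less than `J` are placed. The
places of the blocks of the remaining gaps carry labels of the set `E`. -/
structure REmb {q : ℕ} {Λ : Type} (N t : ℕ) (rk : ℕ → ℕ) (F : ℕ → ℕ → Fin q) (c : Fin q) (J v : ℕ)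
    (A : Λ → Finset ℕ) (E : Finset Λ) (w : ℕ → ℕ ⊕ Λ) : Prop where
  lab : ∀ l ∈ E, ∃ i, i < t ∧ w i = Sum.inr l
  labE : ∀ i l, i < t → w i = Sum.inr l → l ∈ E
  ver : ∀ i a, i < t → w i = Sum.inl a → a < N
  unp : ∀ g, g + 1 < t → J ≤ rk g → ∃ l, w g = Sum.inr l ∧ w (g + 1) = Sum.inr l
  colv : ∀ i j a, i < t → j < t → i ≠ j → w i = Sum.inl a → ∀ y ∈ plc A (w j), F a y = c
  sep : ∀ g, g + 1 < t → rk g < J → ∀ p ∈ plc A (w g), ∀ p' ∈ plc A (w (g + 1)), p + 3 ^ v ≤ p'
  ord : ∀ g g', g + 1 < t → g' + 1 < t → rk g < rk g' → rk g' < J →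
    ∀ p ∈ plc A (w g), ∀ p' ∈ plc A (w (g + 1)), ∀ r ∈ plc A (w g'), ∀ r' ∈ plc A (w (g' + 1)),
      r' + p < p' + r
  sing : ∀ i l, i < t → w i = Sum.inr l → (∀ g, g + 1 = i → rk g < J) → (i + 1 < t → rk i < J) →
    ∃ g, g + 1 = i ∧ LocMin t rk g

section

variable {q : ℕ} {Λ : Type} {N t : ℕ} {rk : ℕ → ℕ} {F : ℕ → ℕ → Fin q} {c : Fin q} {J v : ℕ}
  {A : Λ → Finset ℕ} {E : Finset Λ} {w : ℕ → ℕ ⊕ Λ}

/-- the empty realisation with one label -/
theorem REmb.start (N t : ℕ) (ht : 2 ≤ t) (rk : ℕ → ℕ) (F : ℕ → ℕ → Fin q) (c : Fin q) (v : ℕ)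
    (A : Λ → Finset ℕ) (l : Λ) : REmb N t rk F c 0 v A {l} (fun _ => Sum.inr l) where
  lab := by
    intro l' hl'
    rw [Finset.mem_singleton] at hl'
    exact ⟨0, by omega, by rw [hl']⟩
  labE := by
    intro i l' _ h
    rw [Finset.mem_singleton]
    exact (Sum.inr_injective h).symm
  ver := by intro i a _ h; cases h
  unp := by intro g _ _; exact ⟨l, rfl, rfl⟩
  colv := by intro i j a _ _ _ h; cases h
  sep := by intro g _ h; exact absurd h (Nat.not_lt_zero _)
  ord := by intro g g' _ _ _ h; exact absurd h (Nat.not_lt_zero _)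
  sing := by
    intro i l' hi _ h1 h2
    exfalso
    rcases Nat.eq_zero_or_pos i with h0 | h0
    · exact absurd (h2 (by omega)) (Nat.not_lt_zero _)
    · exact absurd (h1 (i - 1) (by omega)) (Nat.not_lt_zero _)

/-- transport of a realisation along a relabelling -/
theorem REmb.transport {Λ' : Type} [DecidableEq Λ'] (h : REmb N t rk F c J v A E w) (lift : Λ → Λ')
    (v' : ℕ) (hv : v' ≤ v) (A' : Λ' → Finset ℕ) (hA : ∀ l ∈ E, A' (lift l) ⊆ A l) :
    REmb N t rk F c J v' A' (E.image lift) (fun i => Sum.map id lift (w i)) := by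
  have hp : ∀ i, i < t → ∀ y ∈ plc A' (Sum.map id lift (w i)), y ∈ plc A (w i) := by
    intro i hi y hy
    rcases hw : w i with a | l
    · rw [hw] at hy; exact hy
    · rw [hw] at hy
      exact hA l (h.labE i l hi hw) hy
  have h3 : 3 ^ v' ≤ 3 ^ v := Nat.pow_le_pow_right (by norm_num) hv
  constructor
  · intro l' hl'
    obtain ⟨l, hl, rfl⟩ := Finset.mem_image.1 hl'
    obtain ⟨i, hi, hw⟩ := h.lab l hl
    exact ⟨i, hi, by rw [hw]; rfl⟩
  · intro i l' hi hw'
    rcases hw : w i with a | l
    · rw [hw] at hw'; simp at hw'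
    · rw [hw] at hw'
      have : lift l = l' := by simpa using hw'
      rw [← this]
      exact Finset.mem_image_of_mem _ (h.labE i l hi hw)
  · intro i a hi hw'
    rcases hw : w i with a' | l
    · rw [hw] at hw'
      have : a' = a := by simpa using hw'
      rw [← this]
      exact h.ver i a' hi hw
    · rw [hw] at hw'; simp at hw'
  · intro g hg hJ
    obtain ⟨l, h1, h2⟩ := h.unp g hg hJ
    exact ⟨lift l, by rw [h1]; rfl, by rw [h2]; rfl⟩
  · intro i j a hi hj hij hw' y hy
    rcases hw : w i with a' | l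
    · rw [hw] at hw'
      have : a' = a := by simpa using hw'
      rw [← this]
      exact h.colv i j a' hi hj hij hw y (hp j hj y hy)
    · rw [hw] at hw'; simp at hw'
  · intro g hg hJ p hp1 p' hp2
    exact (Nat.add_le_add_left h3 p).trans
      (h.sep g hg hJ p (hp g (by omega) p hp1) p' (hp (g + 1) hg p' hp2))
  · intro g g' hg hg' hr hJ p hp1 p' hp2 r hr1 r' hr2
    exact h.ord g g' hg hg' hr hJ p (hp g (by omega) p hp1) p' (hp (g + 1) hg p' hp2)
      r (hp g' (by omega) r hr1) r' (hp (g' + 1) hg' r' hr2)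
  · intro i l' hi hw' h1 h2
    rcases hw : w i with a | l
    · rw [hw] at hw'; simp at hw'
    · exact h.sing i l hi hw h1 h2

/-- refinement of a realisation -/
theorem REmb.refine (h : REmb N t rk F c J v A E w) (v' : ℕ) (hv : v' ≤ v) (A' : Λ → Finset ℕ)
    (hA : ∀ l ∈ E, A' l ⊆ A l) : REmb N t rk F c J v' A' E w := by
  classical
  have h1 := h.transport id v' hv A' hA
  rw [Finset.image_id] at h1
  have h2 : (fun i => Sum.map id id (w i)) = w := by
    funext i
    rcases w i with a | l <;> rfl
  rw [h2] at h1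
  exact h1

theorem REmb.card_le (h : REmb N t rk F c J v A E w)
    (hinj : ∀ g g', g + 1 < t → g' + 1 < t → rk g = rk g' → g = g') : E.card ≤ (LM t rk).card := by
  classical
  refine Finset.card_le_card_of_forall_subsingleton
    (fun l g => (J ≤ rk g ∧ w g = Sum.inr l) ∨ (rk g < J ∧ w (g + 1) = Sum.inr l)) ?_ ?_
  · intro l hl
    obtain ⟨i, hi, hw⟩ := h.lab l hl
    by_cases hex : ∃ g, g + 1 < t ∧ J ≤ rk g ∧ w g = Sum.inr l
    · -- the last unplaced gap of the label
      have hne : ((range (t - 1)).filter (fun g => J ≤ rk g ∧ w g = Sum.inr l)).Nonempty := by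
        obtain ⟨g, h1, h2, h3⟩ := hex
        exact ⟨g, Finset.mem_filter.2 ⟨Finset.mem_range.2 (by omega), h2, h3⟩⟩
      obtain ⟨g, hg, hmax⟩ := Finset.exists_max_image _ rk hne
      rw [Finset.mem_filter, Finset.mem_range] at hg
      obtain ⟨hg1, hg2, hg3⟩ := hg
      refine ⟨g, ?_, Or.inl ⟨hg2, hg3⟩⟩
      unfold LM
      rw [Finset.mem_filter, Finset.mem_range]
      refine ⟨hg1, ?_⟩
      intro g' hg' hadj
      by_contra hcon
      push Not at hcon
      have hne' : g' ≠ g := by omega
      have hJ' : J ≤ rk g' := hg2.trans hcon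
      have hw' : w g' = Sum.inr l := by
        rcases hadj with h1 | h1
        · obtain ⟨l', h2, h3⟩ := h.unp g' hg' hJ'
          rw [h1, hg3] at h3
          rw [h2, Sum.inr_injective h3]
        · obtain ⟨l', h2, h3⟩ := h.unp g (by omega) hg2
          rw [h2] at hg3
          rw [← h1, h3, Sum.inr_injective hg3]
      have h4 := hmax g' (Finset.mem_filter.2 ⟨Finset.mem_range.2 (by omega), hJ', hw'⟩)
      exact hne' (hinj g' g hg' (by omega) (le_antisymm h4 hcon))
    · push Not at hex
      have h1 : i + 1 < t → rk i < J := by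
        intro hi1
        by_contra hcon
        push Not at hcon
        exact hex i hi1 hcon hw
      have h2 : ∀ g, g + 1 = i → rk g < J := by
        intro g hg
        by_contra hcon
        push Not at hcon
        obtain ⟨l', h3, h4⟩ := h.unp g (by omega) hcon
        rw [hg, hw] at h4
        rw [← Sum.inr_injective h4] at h3
        exact hex g (by omega) hcon h3
      obtain ⟨g, hg, hloc⟩ := h.sing i l hi hw h2 h1
      refine ⟨g, ?_, Or.inr ⟨h2 g hg, by rw [hg, hw]⟩⟩
      unfold LM
      rw [Finset.mem_filter, Finset.mem_range]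
      exact ⟨by omega, hloc⟩
  · intro g _ l hl l' hl'
    simp only [Set.mem_ofPred_eq] at hl hl'
    obtain ⟨_, hl⟩ := hl
    obtain ⟨_, hl'⟩ := hl'
    rcases hl with ⟨h1, h2⟩ | ⟨h1, h2⟩ <;> rcases hl' with ⟨h3, h4⟩ | ⟨h3, h4⟩
    · rw [h2] at h4; exact Sum.inr_injective h4
    · omega
    · omega
    · rw [h2] at h4; exact Sum.inr_injective h4

/-- placing a vertex on the left side of the next gap -/
theorem REmb.minorL [DecidableEq Λ] (h : REmb N t rk F c J (v + 1) A E w)
    (hF : ∀ a b, F a b = F b a)
    (hinj : ∀ g g', g + 1 < t → g' + 1 < t → rk g = rk g' → g = g') (g : ℕ) (hg : g + 1 < t)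
    (hr : rk g = J) (x : Λ) (hw : w g = Sum.inr x) (hw1 : w (g + 1) = Sum.inr x)
    (hleft : ∀ h, h + 1 = g → rk h < J) (a : ℕ) (ha : a ∈ A x) (haN : a < N)
    (A' : Λ → Finset ℕ) (hA : ∀ l ∈ E, A' l ⊆ A l)
    (hx : ∀ y ∈ A' x, F a y = c ∧ a + 3 ^ v ≤ y) (hl : ∀ l ∈ E, l ≠ x → ∀ y ∈ A' l, F a y = c)
    (hhull : ∀ y ∈ A x, ∀ y' ∈ A x, y' < y + 3 ^ (v + 1)) :
    REmb N t rk F c (J + 1) v A' E (Function.update w g (Sum.inl a)) := by
  have hxE : x ∈ E := h.labE g x (by omega) hw
  have hp : ∀ i, i < t → ∀ y ∈ plc A' (Function.update w g (Sum.inl a) i), y ∈ plc A (w i) := by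
    intro i hi y hy
    by_cases hig : i = g
    · rw [hig, Function.update_self] at hy
      rw [hig, hw]
      have : y = a := by simpa [plc] using hy
      rw [this]; exact ha
    · rw [Function.update_of_ne hig] at hy
      rcases hwi : w i with a' | l
      · rw [hwi] at hy; exact hy
      · rw [hwi] at hy
        exact hA l (h.labE i l hi hwi) hy
  have hpw : 3 ^ v ≤ 3 ^ (v + 1) := Nat.pow_le_pow_right (by norm_num) (Nat.le_succ v)
  have hne1 : g + 1 ≠ g := by omega
  constructor
  · intro l hlE
    by_cases hlx : l = x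
    · exact ⟨g + 1, hg, by rw [Function.update_of_ne hne1, hw1, hlx]⟩
    · obtain ⟨i, hi, hwi⟩ := h.lab l hlE
      refine ⟨i, hi, ?_⟩
      have : i ≠ g := by
        rintro rfl
        rw [hw] at hwi
        exact hlx (Sum.inr_injective hwi).symm
      rw [Function.update_of_ne this, hwi]
  · intro i l hi hwi
    by_cases hig : i = g
    · rw [hig, Function.update_self] at hwi; cases hwi
    · rw [Function.update_of_ne hig] at hwi
      exact h.labE i l hi hwi
  · intro i a' hi hwi
    by_cases hig : i = g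
    · rw [hig, Function.update_self] at hwi
      rw [← Sum.inl_injective hwi]; exact haN
    · rw [Function.update_of_ne hig] at hwi
      exact h.ver i a' hi hwi
  · intro g' hg' hJ
    obtain ⟨l, h1, h2⟩ := h.unp g' hg' (by omega)
    have hne : g' ≠ g := by rintro rfl; omega
    have hne2 : g' + 1 ≠ g := by
      intro h3
      have := hleft g' h3
      omega
    exact ⟨l, by rw [Function.update_of_ne hne, h1], by rw [Function.update_of_ne hne2, h2]⟩
  · intro i j a' hi hj hij hwi y hy
    by_cases hig : i = g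
    · rw [hig, Function.update_self] at hwi
      rw [← Sum.inl_injective hwi]
      have hjg : j ≠ g := fun h => hij (hig.trans h.symm)
      rw [Function.update_of_ne hjg] at hy
      rcases hwj : w j with a'' | l
      · rw [hwj] at hy
        have hya : y = a'' := by simpa [plc] using hy
        rw [hya, hF]
        exact h.colv j g a'' hj (by omega) hjg hwj a (by rw [hw]; exact ha)
      · rw [hwj] at hy
        by_cases hlx : l = x
        · rw [hlx] at hy
          exact (hx y hy).1
        · exact hl l (h.labE j l hj hwj) hlx y hy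
    · rw [Function.update_of_ne hig] at hwi
      exact h.colv i j a' hi hj hij hwi y (hp j hj y hy)
  · intro g' hg' hJ p hp1 p' hp2
    by_cases hgg : g' = g
    · subst hgg
      rw [Function.update_self] at hp1
      rw [Function.update_of_ne hne1, hw1] at hp2
      have hpa : p = a := by simpa [plc] using hp1
      rw [hpa]
      exact (hx p' hp2).2
    · have hlt : rk g' < J := by
        rcases Nat.lt_or_ge (rk g') J with h1 | h1
        · exact h1
        · exfalso
          exact hgg (hinj g' g hg' hg (by omega))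
      exact (Nat.add_le_add_left hpw p).trans
        (h.sep g' hg' hlt p (hp g' (by omega) p hp1) p' (hp (g' + 1) hg' p' hp2))
  · intro g1 g2 hg1 hg2 hr12 hJ p hp1 p' hp2 r hr1 r' hr2
    have hp1' := hp g1 (by omega) p hp1
    have hp2' := hp (g1 + 1) hg1 p' hp2
    have hr1' := hp g2 (by omega) r hr1
    have hr2' := hp (g2 + 1) hg2 r' hr2
    by_cases hgg : g2 = g
    · subst hgg
      have h1 := h.sep g1 hg1 (by omega) p hp1' p' hp2'
      rw [hw] at hr1'
      rw [hw1] at hr2'
      have h2 := hhull r hr1' r' hr2'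
      omega
    · have hlt : rk g2 < J := by
        rcases Nat.lt_or_ge (rk g2) J with h1 | h1
        · exact h1
        · exfalso
          exact hgg (hinj g2 g hg2 hg (by omega))
      exact h.ord g1 g2 hg1 hg2 hr12 hlt p hp1' p' hp2' r hr1' r' hr2'
  · intro i l hi hwi h1 h2
    have hig : i ≠ g := by
      rintro rfl
      rw [Function.update_self] at hwi; cases hwi
    rw [Function.update_of_ne hig] at hwi
    by_cases hi1 : i = g + 1
    · refine ⟨g, hi1.symm, ?_⟩
      intro h' hh' hadj
      rw [hr]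
      rcases hadj with h3 | h3
      · exact hleft h' h3
      · have h4 : h' = i := by omega
        rw [h4] at hh' ⊢
        have h5 := h2 hh'
        have h6 : rk i ≠ J := by
          intro h7
          have := hinj i g hh' hg (h7.trans hr.symm)
          omega
        omega
    · refine h.sing i l hi hwi ?_ ?_
      · intro g' hg'
        have h3 := h1 g' hg'
        have h4 : rk g' ≠ J := by
          intro h5
          have := hinj g' g (by omega) hg (h5.trans hr.symm)
          omega
        omega
      · intro hi2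
        have h3 := h2 hi2
        have h4 : rk i ≠ J := by
          intro h5
          exact hig (hinj i g hi2 hg (h5.trans hr.symm))
        omega

/-- placing a vertex on the right side of the next gap -/
theorem REmb.minorR [DecidableEq Λ] (h : REmb N t rk F c J (v + 1) A E w)
    (hF : ∀ a b, F a b = F b a)
    (hinj : ∀ g g', g + 1 < t → g' + 1 < t → rk g = rk g' → g = g') (g : ℕ) (hg : g + 1 < t)
    (hr : rk g = J) (x : Λ) (hw : w g = Sum.inr x) (hw1 : w (g + 1) = Sum.inr x)
    (hright : g + 2 < t → rk (g + 1) < J) (hleft : ∃ h, h + 1 = g ∧ J ≤ rk h)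
    (a : ℕ) (ha : a ∈ A x) (haN : a < N)
    (A' : Λ → Finset ℕ) (hA : ∀ l ∈ E, A' l ⊆ A l)
    (hx : ∀ y ∈ A' x, F a y = c ∧ y + 3 ^ v ≤ a) (hl : ∀ l ∈ E, l ≠ x → ∀ y ∈ A' l, F a y = c)
    (hhull : ∀ y ∈ A x, ∀ y' ∈ A x, y' < y + 3 ^ (v + 1)) :
    REmb N t rk F c (J + 1) v A' E (Function.update w (g + 1) (Sum.inl a)) := by
  have hxE : x ∈ E := h.labE g x (by omega) hw
  have hp : ∀ i, i < t → ∀ y ∈ plc A' (Function.update w (g + 1) (Sum.inl a) i), y ∈ plc A (w i) := by
    intro i hi y hy
    by_cases hig : i = g + 1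
    · rw [hig, Function.update_self] at hy
      rw [hig, hw1]
      have : y = a := by simpa [plc] using hy
      rw [this]; exact ha
    · rw [Function.update_of_ne hig] at hy
      rcases hwi : w i with a' | l
      · rw [hwi] at hy; exact hy
      · rw [hwi] at hy
        exact hA l (h.labE i l hi hwi) hy
  have hpw : 3 ^ v ≤ 3 ^ (v + 1) := Nat.pow_le_pow_right (by norm_num) (Nat.le_succ v)
  have hne1 : g ≠ g + 1 := by omega
  constructor
  · intro l hlE
    by_cases hlx : l = x
    · exact ⟨g, by omega, by rw [Function.update_of_ne hne1, hw, hlx]⟩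
    · obtain ⟨i, hi, hwi⟩ := h.lab l hlE
      refine ⟨i, hi, ?_⟩
      have : i ≠ g + 1 := by
        rintro rfl
        rw [hw1] at hwi
        exact hlx (Sum.inr_injective hwi).symm
      rw [Function.update_of_ne this, hwi]
  · intro i l hi hwi
    by_cases hig : i = g + 1
    · rw [hig, Function.update_self] at hwi; cases hwi
    · rw [Function.update_of_ne hig] at hwi
      exact h.labE i l hi hwi
  · intro i a' hi hwi
    by_cases hig : i = g + 1
    · rw [hig, Function.update_self] at hwi
      rw [← Sum.inl_injective hwi]; exact haN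
    · rw [Function.update_of_ne hig] at hwi
      exact h.ver i a' hi hwi
  · intro g' hg' hJ
    obtain ⟨l, h1, h2⟩ := h.unp g' hg' (by omega)
    have hne : g' ≠ g := by rintro rfl; omega
    have hne2 : g' ≠ g + 1 := by
      rintro rfl
      have := hright (by omega)
      omega
    have hne3 : g' + 1 ≠ g + 1 := by omega
    exact ⟨l, by rw [Function.update_of_ne hne2, h1], by rw [Function.update_of_ne hne3, h2]⟩
  · intro i j a' hi hj hij hwi y hy
    by_cases hig : i = g + 1
    · rw [hig, Function.update_self] at hwi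
      rw [← Sum.inl_injective hwi]
      have hjg : j ≠ g + 1 := fun h => hij (hig.trans h.symm)
      rw [Function.update_of_ne hjg] at hy
      rcases hwj : w j with a'' | l
      · rw [hwj] at hy
        have hya : y = a'' := by simpa [plc] using hy
        rw [hya, hF]
        exact h.colv j (g + 1) a'' hj hg hjg hwj a (by rw [hw1]; exact ha)
      · rw [hwj] at hy
        by_cases hlx : l = x
        · rw [hlx] at hy
          exact (hx y hy).1
        · exact hl l (h.labE j l hj hwj) hlx y hy
    · rw [Function.update_of_ne hig] at hwi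
      exact h.colv i j a' hi hj hij hwi y (hp j hj y hy)
  · intro g' hg' hJ p hp1 p' hp2
    by_cases hgg : g' = g
    · subst hgg
      rw [Function.update_self] at hp2
      rw [Function.update_of_ne hne1, hw] at hp1
      have hpa : p' = a := by simpa [plc] using hp2
      rw [hpa]
      exact (hx p hp1).2
    · have hlt : rk g' < J := by
        rcases Nat.lt_or_ge (rk g') J with h1 | h1
        · exact h1
        · exfalso
          exact hgg (hinj g' g hg' hg (by omega))
      exact (Nat.add_le_add_left hpw p).trans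
        (h.sep g' hg' hlt p (hp g' (by omega) p hp1) p' (hp (g' + 1) hg' p' hp2))
  · intro g1 g2 hg1 hg2 hr12 hJ p hp1 p' hp2 r hr1 r' hr2
    have hp1' := hp g1 (by omega) p hp1
    have hp2' := hp (g1 + 1) hg1 p' hp2
    have hr1' := hp g2 (by omega) r hr1
    have hr2' := hp (g2 + 1) hg2 r' hr2
    by_cases hgg : g2 = g
    · subst hgg
      have h1 := h.sep g1 hg1 (by omega) p hp1' p' hp2'
      rw [hw] at hr1'
      rw [hw1] at hr2'
      have h2 := hhull r hr1' r' hr2'
      omega
    · have hlt : rk g2 < J := by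
        rcases Nat.lt_or_ge (rk g2) J with h1 | h1
        · exact h1
        · exfalso
          exact hgg (hinj g2 g hg2 hg (by omega))
      exact h.ord g1 g2 hg1 hg2 hr12 hlt p hp1' p' hp2' r hr1' r' hr2'
  · intro i l hi hwi h1 h2
    have hig : i ≠ g + 1 := by
      rintro rfl
      rw [Function.update_self] at hwi; cases hwi
    rw [Function.update_of_ne hig] at hwi
    by_cases hi1 : i = g
    · exfalso
      obtain ⟨h', hh', hJ'⟩ := hleft
      have h3 := h1 h' (hh'.trans hi1.symm)
      have h4 : rk h' ≠ J := by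
        intro h5
        have := hinj h' g (by omega) hg (h5.trans hr.symm)
        omega
      omega
    · refine h.sing i l hi hwi ?_ ?_
      · intro g' hg'
        have h3 := h1 g' hg'
        have h4 : rk g' ≠ J := by
          intro h5
          have := hinj g' g (by omega) hg (h5.trans hr.symm)
          omega
        omega
      · intro hi2
        have h3 := h2 hi2
        have h4 : rk i ≠ J := by
          intro h5
          exact hi1 (hinj i g hi2 hg (h5.trans hr.symm))
        omega

/-- keeping both sides of the next gap -/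
theorem REmb.major [DecidableEq Λ] (h : REmb N t rk F c J (v + 1) A E w)
    (hinj : ∀ g g', g + 1 < t → g' + 1 < t → rk g = rk g' → g = g') (g : ℕ) (hg : g + 1 < t)
    (hr : rk g = J) (x x₁ : Λ) (hw : w g = Sum.inr x) (hw1 : w (g + 1) = Sum.inr x)
    (hleft : ∃ h, h + 1 = g ∧ J ≤ rk h) (hright : g + 2 < t ∧ J ≤ rk (g + 1))
    (A' : Λ → Finset ℕ) (hA : ∀ l ∈ E, A' l ⊆ A l) (hA₁ : A' x₁ ⊆ A x)
    (hx : ∀ y ∈ A' x, ∀ y' ∈ A' x₁, y + 3 ^ v ≤ y')
    (hhull : ∀ y ∈ A x, ∀ y' ∈ A x, y' < y + 3 ^ (v + 1)) :
    REmb N t rk F c (J + 1) v A' (insert x₁ E)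
      (fun i => if w i = Sum.inr x ∧ g < i then Sum.inr x₁ else w i) := by
  have hxE : x ∈ E := h.labE g x (by omega) hw
  set w' : ℕ → ℕ ⊕ Λ := fun i => if w i = Sum.inr x ∧ g < i then Sum.inr x₁ else w i with hw'
  have hpos : ∀ i, w i = Sum.inr x → g < i → w' i = Sum.inr x₁ := by
    intro i h1 h2; simp only [hw']; rw [if_pos ⟨h1, h2⟩]
  have hneg : ∀ i, ¬ (w i = Sum.inr x ∧ g < i) → w' i = w i := by
    intro i h1; simp only [hw']; rw [if_neg h1]
  have hp : ∀ i, i < t → ∀ y ∈ plc A' (w' i), y ∈ plc A (w i) := by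
    intro i hi y hy
    by_cases hig : w i = Sum.inr x ∧ g < i
    · rw [hpos i hig.1 hig.2] at hy
      rw [hig.1]
      exact hA₁ hy
    · rw [hneg i hig] at hy
      rcases hwi : w i with a' | l
      · rw [hwi] at hy; exact hy
      · rw [hwi] at hy
        exact hA l (h.labE i l hi hwi) hy
  have hpw : 3 ^ v ≤ 3 ^ (v + 1) := Nat.pow_le_pow_right (by norm_num) (Nat.le_succ v)
  have hg' : w' g = Sum.inr x := by rw [hneg g (by simp), hw]
  have hg1' : w' (g + 1) = Sum.inr x₁ := hpos (g + 1) hw1 (by omega)
  constructor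
  · intro l hlE
    rcases Finset.mem_insert.1 hlE with hl1 | hlE
    · exact ⟨g + 1, hg, by rw [hg1', hl1]⟩
    · by_cases hlx : l = x
      · exact ⟨g, by omega, by rw [hg', hlx]⟩
      · obtain ⟨i, hi, hwi⟩ := h.lab l hlE
        refine ⟨i, hi, ?_⟩
        rw [hneg i (by rw [hwi]; rintro ⟨h1, _⟩; exact hlx (Sum.inr_injective h1)), hwi]
  · intro i l hi hwi
    by_cases hig : w i = Sum.inr x ∧ g < i
    · rw [hpos i hig.1 hig.2] at hwi
      rw [← Sum.inr_injective hwi]
      exact Finset.mem_insert_self _ _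
    · rw [hneg i hig] at hwi
      exact Finset.mem_insert_of_mem (h.labE i l hi hwi)
  · intro i a' hi hwi
    by_cases hig : w i = Sum.inr x ∧ g < i
    · rw [hpos i hig.1 hig.2] at hwi; cases hwi
    · rw [hneg i hig] at hwi
      exact h.ver i a' hi hwi
  · intro g' hg' hJ
    obtain ⟨l, h1, h2⟩ := h.unp g' hg' (by omega)
    have hne : g' ≠ g := by rintro rfl; omega
    by_cases hlx : l = x
    · rw [hlx] at h1 h2
      rcases Nat.lt_or_ge g g' with h3 | h3
      · exact ⟨x₁, hpos g' h1 h3, hpos (g' + 1) h2 (by omega)⟩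
      · refine ⟨x, ?_, ?_⟩
        · rw [hneg g' (by rintro ⟨_, h4⟩; omega), h1]
        · rw [hneg (g' + 1) (by rintro ⟨_, h4⟩; omega), h2]
    · refine ⟨l, ?_, ?_⟩
      · rw [hneg g' (by rw [h1]; rintro ⟨h4, _⟩; exact hlx (Sum.inr_injective h4)), h1]
      · rw [hneg (g' + 1) (by rw [h2]; rintro ⟨h4, _⟩; exact hlx (Sum.inr_injective h4)), h2]
  · intro i j a' hi hj hij hwi y hy
    by_cases hig : w i = Sum.inr x ∧ g < i
    · rw [hpos i hig.1 hig.2] at hwi; cases hwi
    · rw [hneg i hig] at hwi
      exact h.colv i j a' hi hj hij hwi y (hp j hj y hy)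
  · intro g' hg2 hJ p hp1 p' hp2
    by_cases hgg : g' = g
    · subst hgg
      rw [hg'] at hp1
      rw [hg1'] at hp2
      exact hx p hp1 p' hp2
    · have hlt : rk g' < J := by
        rcases Nat.lt_or_ge (rk g') J with h1 | h1
        · exact h1
        · exfalso
          exact hgg (hinj g' g hg2 hg (by omega))
      exact (Nat.add_le_add_left hpw p).trans
        (h.sep g' hg2 hlt p (hp g' (by omega) p hp1) p' (hp (g' + 1) hg2 p' hp2))
  · intro g1 g2 hg1 hg2 hr12 hJ p hp1 p' hp2 r hr1 r' hr2
    have hp1' := hp g1 (by omega) p hp1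
    have hp2' := hp (g1 + 1) hg1 p' hp2
    have hr1' := hp g2 (by omega) r hr1
    have hr2' := hp (g2 + 1) hg2 r' hr2
    by_cases hgg : g2 = g
    · subst hgg
      have h1 := h.sep g1 hg1 (by omega) p hp1' p' hp2'
      rw [hw] at hr1'
      rw [hw1] at hr2'
      have h2 := hhull r hr1' r' hr2'
      omega
    · have hlt : rk g2 < J := by
        rcases Nat.lt_or_ge (rk g2) J with h1 | h1
        · exact h1
        · exfalso
          exact hgg (hinj g2 g hg2 hg (by omega))
      exact h.ord g1 g2 hg1 hg2 hr12 hlt p hp1' p' hp2' r hr1' r' hr2'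
  · intro i l hi hwi h1 h2
    have hlab : ∃ l', w i = Sum.inr l' := by
      by_cases hig : w i = Sum.inr x ∧ g < i
      · exact ⟨x, hig.1⟩
      · rw [hneg i hig] at hwi
        exact ⟨l, hwi⟩
    obtain ⟨l', hwi'⟩ := hlab
    by_cases hi1 : i = g
    · exfalso
      obtain ⟨h', hh', hJ'⟩ := hleft
      have h3 := h1 h' (hh'.trans hi1.symm)
      have h4 : rk h' ≠ J := by
        intro h5
        have := hinj h' g (by omega) hg (h5.trans hr.symm)
        omega
      omega
    · by_cases hi2 : i = g + 1
      · exfalso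
        obtain ⟨h3, h4⟩ := hright
        have h5 := h2 (by omega)
        rw [hi2] at h5
        have h6 : rk (g + 1) ≠ J := by
          intro h7
          have := hinj (g + 1) g (by omega) hg (h7.trans hr.symm)
          omega
        omega
      · refine h.sing i l' hi hwi' ?_ ?_
        · intro g' hg'
          have h3 := h1 g' hg'
          have h4 : rk g' ≠ J := by
            intro h5
            have := hinj g' g (by omega) hg (h5.trans hr.symm)
            omega
          omega
        · intro hi3
          have h3 := h2 hi3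
          have h4 : rk i ≠ J := by
            intro h5
            exact hi1 (hinj i g hi3 hg (h5.trans hr.symm))
          omega

end

end Pool.Agent.helper890_gap
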