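import Pool.Agent.helper890_gap.State

/-!
The main induction.
-/

set_option autoImplicit false
set_option linter.unusedSectionVars false
set_option linter.unusedVariables false

namespace Pool.Agent.helper890_gap

open Finset

/-- all states of rank less than `r` with `m` positions and density at least `ζ` at a level at
least `C (t + b)` can be completed -/
def Sol (q k r m : ℕ) (ζ : ℝ) (C : ℕ) : Prop :=
  ∀ (t : ℕ), 2 ≤ t → ∀ (N : ℕ) (rk : ℕ → ℕ) (F : ℕ → ℕ → Fin q), (∀ a b, F a b = F b a) →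
    GoodRk t rk → (LM t rk).card ≤ k →
    ∀ (ι : Type) [Fintype ι] [DecidableEq ι], Fintype.card ι = m →
    ∀ (b v : ℕ), C * (t + b) ≤ v → ∀ (col : ι → ι → Fin q) (A : ι → Finset ℕ)
      (L : Finset (Fin q → ℕ)) (pos : (Fin q → ℕ) → ι) (J : Fin q → Finset (Fin q → ℕ) → ℕ),
      State N t rk F col v A L pos J → rank k L < r → ζ * vol A ≤ cnt (Right F col) A →
      ((3 : ℝ) ^ v) ^ m ≤ 2 ^ b * vol A → Goal N t rk F

theorem climb {q k r m : ℕ} (hq : 0 < q) (hk : 1 ≤ k) (δ : ℝ) (hδ : 0 < δ) (C l c2 Cn b' V0 : ℕ)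
    (hC : 1 ≤ C) (hl : 1 ≤ l) (hρC : 4 * 2 ^ m ≤ δ ^ 2 / (8 * q) * C)
    (hκ1 : δ ^ 2 / (8 * q) * (1 / 4) ^ C / 2 ≤ 1)
    (hc2 : 1 ≤ (δ ^ 2 / (8 * q) * (1 / 4) ^ C / 2) * (1 + 1 / (2 * 3 ^ m)) ^ c2)
    (hSol : Sol q k r (m + 1) (δ ^ 4 / (64 * q ^ 2)) Cn)
    (hb' : 1 ≤ 2 ^ b' * δ ^ (2 * (2 * C * l)))
    (t : ℕ) (ht : 2 ≤ t) (hV0 : Cn * (t + b') + 1 ≤ V0)
    (N : ℕ) (rk : ℕ → ℕ) (F : ℕ → ℕ → Fin q) (hF : ∀ a b, F a b = F b a) (hrk : GoodRk t rk)
    (hLM : (LM t rk).card ≤ k)
    (ι : Type) [Fintype ι] [DecidableEq ι] (hm : Fintype.card ι = m) (col : ι → ι → Fin q)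
    (L : Finset (Fin q → ℕ)) (pos : (Fin q → ℕ) → ι) (hrank : rank k L < r + 1) :
    ∀ (v : ℕ) (A : ι → Finset ℕ) (J : Fin q → Finset (Fin q → ℕ) → ℕ),
      State N t rk F col v A L pos J →
      (1 + 1 / (2 * 3 ^ m)) ^ (V0 + (c2 + 1) * mu t L J) ≤
        Phi (Right F col) (2 * C * l) v A * (1 + 1 / (2 * 3 ^ m)) ^ v →
      2 * δ ^ (2 * C * l) ≤
        Phi (Right F col) (2 * C * l) v A * (δ ^ 2 / (8 * q) * (1 / 4) ^ C / 2) ^ (mu t L J) →
      Goal N t rk F := by
  classical
  have hq' : (0 : ℝ) < q := by exact_mod_cast hq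
  set K := 2 * C * l with hKdef
  set T := Right F col with hT
  set β : ℝ := 1 + 1 / (2 * 3 ^ m) with hβ
  set κ : ℝ := δ ^ 2 / (8 * q) * (1 / 4) ^ C / 2 with hκ
  have hκ0 : 0 < κ := by rw [hκ]; positivity
  have hβ1 : 1 < β := by
    rw [hβ]
    have : (0 : ℝ) < 1 / (2 * 3 ^ m) := by positivity
    linarith
  have hβ0 : 0 < β := by linarith
  intro v
  induction v with
  | zero =>
    intro A J hst h1 h2
    exfalso
    have hcard : ∀ i, ((A i).card : ℝ) ≤ 3 ^ 0 := by
      intro i
      obtain ⟨b, hb⟩ := hst.hull i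
      exact hull_card _ b 0 hb
    have h3 := Phi_le_one T K 0 A hcard
    rw [pow_zero, mul_one] at h1
    have h4 : β ^ 1 ≤ β ^ (V0 + (c2 + 1) * mu t L J) := pow_le_pow_right₀ hβ1.le (by omega)
    rw [pow_one] at h4
    linarith
  | succ v ih =>
    intro A J hst h1 h2
    have hPhi0 : 0 < Phi T K (v + 1) A := by
      have h3 : 0 < Phi T K (v + 1) A * κ ^ (mu t L J) := lt_of_lt_of_le (by positivity) h2
      exact pos_of_mul_pos_left h3 (by positivity)
    have hcnt : 0 < cnt T A := by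
      rcases (cnt_nonneg T A).eq_or_lt with h3 | h3
      · exfalso
        unfold Phi dens at hPhi0
        rw [← h3, zero_div, zero_pow (by rw [hKdef]; positivity)] at hPhi0
        simp at hPhi0
      · exact h3
    by_cases hfin : ∃ (i : Fin q) (E : Finset (Fin q → ℕ)), IsTr L i E ∧ t ≤ J i E + 1
    · obtain ⟨i, E, hE, hJ⟩ := hfin
      exact hst.final hF hrk i E hE hJ hcnt
    push Not at hfin
    -- the awaited positions
    have haw : ∀ (i : Fin q) (E : Finset (Fin q → ℕ)), ∃ (x : Fin q → ℕ), IsTr L i E →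
        ∃ (w : ℕ → ℕ ⊕ (Fin q → ℕ)) (g : ℕ),
          REmb N t rk F i (J i E) (v + 1) (fun u => A (pos u)) E w ∧ g + 1 < t ∧ rk g = J i E ∧
          w g = Sum.inr x ∧ w (g + 1) = Sum.inr x := by
      intro i E
      by_cases hE : IsTr L i E
      · obtain ⟨w, hw⟩ := hst.emb i E hE
        obtain ⟨g, hg, hr⟩ := hrk.surj (J i E) (hfin i E hE)
        obtain ⟨x, hx1, hx2⟩ := hw.unp g hg (by omega)
        exact ⟨x, fun _ => ⟨w, g, hw, hg, hr, hx1, hx2⟩⟩
      · exact ⟨0, fun h => absurd h hE⟩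
    choose aw haw using haw
    obtain ⟨b, hb⟩ := Classical.axiom_of_choice hst.hull
    by_cases hng : NoGain T K v b A
    · -- no gain: split
      obtain ⟨x, hxL, hx⟩ := select L hst.ne aw (by
        intro i E hE
        obtain ⟨w, g, hw, hg, _, hx1, _⟩ := haw i E hE
        exact hw.labE g _ (by omega) hx1)
      have hφ : 2 * δ ^ K ≤ Phi T K (v + 1) A := by
        refine h2.trans ?_
        calc Phi T K (v + 1) A * κ ^ (mu t L J) ≤ Phi T K (v + 1) A * 1 :=
              mul_le_mul_of_nonneg_left (pow_le_one₀ hκ0.le hκ1) hPhi0.le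
          _ = _ := mul_one _
      obtain ⟨c, hL1, hR1, hM1⟩ := split hq F hF col v C l hC hl b A hb hng δ hδ
        (by rw [hm]; exact hρC) hφ (pos x)
      obtain ⟨E, hE, hEx⟩ := hx c
      obtain ⟨w, g, hw, hg, hr, hx1, hx2⟩ := haw c E hE
      rw [hEx] at hx1 hx2
      have hJt : J c E + 1 < t := hfin c E hE
      have hxE : x ∈ E := hw.labE g x (by omega) hx1
      have hhull : ∀ y ∈ A (pos x), ∀ y' ∈ A (pos x), y' < y + 3 ^ (v + 1) := by
        intro y hy y' hy'
        have h3 := Finset.mem_Ico.1 (hb (pos x) hy)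
        have h4 := Finset.mem_Ico.1 (hb (pos x) hy')
        omega
      -- accounting for a minor step
      have hacc : ∀ (A' : ι → Finset ℕ), κ * Phi T K (v + 1) A ≤ Phi T K v A' →
          State N t rk F col v A' L pos (Jup J c E) → Goal N t rk F := by
        intro A' hPhi hst'
        have hmu := mu_Jup t L J c E hE.sub (by omega)
        have hcap : Phi T K (v + 1) A * κ ^ (mu t L J) ≤
            Phi T K v A' * κ ^ (mu t L (Jup J c E)) := by
          calc Phi T K (v + 1) A * κ ^ (mu t L J)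
              ≤ Phi T K (v + 1) A * κ ^ (mu t L (Jup J c E) + 1) :=
                mul_le_mul_of_nonneg_left (pow_le_pow_of_le_one hκ0.le hκ1 hmu) hPhi0.le
            _ = (κ * Phi T K (v + 1) A) * κ ^ (mu t L (Jup J c E)) := by rw [pow_succ]; ring
            _ ≤ _ := mul_le_mul_of_nonneg_right hPhi (by positivity)
        refine ih A' (Jup J c E) hst' ?_ (h2.trans hcap)
        have hexp : V0 + (c2 + 1) * mu t L (Jup J c E) + (c2 + 1) ≤ V0 + (c2 + 1) * mu t L J := by
          have : (c2 + 1) * (mu t L (Jup J c E) + 1) ≤ (c2 + 1) * mu t L J :=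
            Nat.mul_le_mul_left _ hmu
          rw [Nat.mul_add, Nat.mul_one] at this
          omega
        have h5 : β ^ (V0 + (c2 + 1) * mu t L (Jup J c E)) * β ^ (c2 + 1) ≤
            Phi T K (v + 1) A * β ^ (v + 1) := by
          rw [← pow_add]
          exact (pow_le_pow_right₀ hβ1.le hexp).trans h1
        -- multiply by κ and divide by β
        have h6 : β ^ (V0 + (c2 + 1) * mu t L (Jup J c E)) * β ^ c2 ≤
            Phi T K (v + 1) A * β ^ v := by
          have h7 : (β ^ (V0 + (c2 + 1) * mu t L (Jup J c E)) * β ^ c2) * β ≤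
              (Phi T K (v + 1) A * β ^ v) * β := by
            calc (β ^ (V0 + (c2 + 1) * mu t L (Jup J c E)) * β ^ c2) * β
                = β ^ (V0 + (c2 + 1) * mu t L (Jup J c E)) * β ^ (c2 + 1) := by
                  rw [pow_succ]; ring
              _ ≤ _ := h5
              _ = _ := by rw [pow_succ]; ring
          exact le_of_mul_le_mul_right h7 hβ0
        have h8 : 0 < β ^ (V0 + (c2 + 1) * mu t L (Jup J c E)) := by positivity
        calc β ^ (V0 + (c2 + 1) * mu t L (Jup J c E))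
            = β ^ (V0 + (c2 + 1) * mu t L (Jup J c E)) * 1 := (mul_one _).symm
          _ ≤ β ^ (V0 + (c2 + 1) * mu t L (Jup J c E)) * (κ * β ^ c2) :=
              mul_le_mul_of_nonneg_left hc2 h8.le
          _ = κ * (β ^ (V0 + (c2 + 1) * mu t L (Jup J c E)) * β ^ c2) := by ring
          _ ≤ κ * (Phi T K (v + 1) A * β ^ v) := mul_le_mul_of_nonneg_left h6 hκ0.le
          _ = (κ * Phi T K (v + 1) A) * β ^ v := by ring
          _ ≤ Phi T K v A' * β ^ v := mul_le_mul_of_nonneg_right hPhi (by positivity)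
      by_cases hleft : ∃ h, h + 1 = g ∧ J c E ≤ rk h
      · by_cases hright : g + 2 < t ∧ J c E ≤ rk (g + 1)
        · -- major step
          obtain ⟨x₁, hS⟩ := Spl.exists L c E x hE hxE
          obtain ⟨A', hA1, hA2, hA3, hA4, hA5, hA6⟩ := hM1
          obtain ⟨J', hst'⟩ := hst.major hrk ht c E x x₁ hS w hw g hg hr hx1 hx2 hleft hright A'
            hA1 hA2 hA3 hA4
          have hrank' : rank k (upd L c E x x₁) < r := by
            have := hS.rank_lt k hk (fun i E' hE' => (hst'.tr_card hrk i E' hE').trans hLM)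
            omega
          have hv : Cn * (t + b') ≤ v := by
            -- from h1 and Phi ≤ 1
            have hcard : ∀ i, ((A i).card : ℝ) ≤ 3 ^ (v + 1) := fun i =>
              hull_card _ (b i) (v + 1) (hb i)
            have h3 := Phi_le_one T K (v + 1) A hcard
            have h4 : β ^ (V0 + (c2 + 1) * mu t L J) ≤ β ^ (v + 1) := by
              refine h1.trans ?_
              calc Phi T K (v + 1) A * β ^ (v + 1) ≤ 1 * β ^ (v + 1) :=
                    mul_le_mul_of_nonneg_right h3 (by positivity)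
                _ = _ := one_mul _
            have h5 := (pow_le_pow_iff_right₀ hβ1).1 h4
            have h6 : V0 ≤ v + 1 := le_trans (Nat.le_add_right _ _) h5
            omega
          refine hSol t ht N rk F hF hrk hLM (Option ι) (by rw [Fintype.card_option, hm]) b' v hv
            (ocol col (pos x) c) A' (upd L c E x x₁) (posO pos x₁) J' hst' hrank' hA5 ?_
          rw [hm] at hA6
          have h7 : δ ^ (2 * K) ≤ Phi T K (v + 1) A ^ 2 / 4 := by
            have h8 : (2 * δ ^ K) ^ 2 ≤ Phi T K (v + 1) A ^ 2 :=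
              pow_le_pow_left₀ (by positivity) hφ 2
            have h9 : (2 * δ ^ K) ^ 2 = 4 * δ ^ (2 * K) := by
              rw [mul_pow, ← pow_mul, mul_comm K 2]; norm_num
            rw [h9] at h8
            linarith
          have h10 : δ ^ (2 * K) * ((3 : ℝ) ^ v) ^ (m + 1) ≤ vol A' :=
            (mul_le_mul_of_nonneg_right h7 (by positivity)).trans hA6
          calc ((3 : ℝ) ^ v) ^ (m + 1) = 1 * ((3 : ℝ) ^ v) ^ (m + 1) := (one_mul _).symm
            _ ≤ (2 ^ b' * δ ^ (2 * K)) * ((3 : ℝ) ^ v) ^ (m + 1) :=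
                mul_le_mul_of_nonneg_right hb' (by positivity)
            _ = 2 ^ b' * (δ ^ (2 * K) * ((3 : ℝ) ^ v) ^ (m + 1)) := by ring
            _ ≤ 2 ^ b' * vol A' := mul_le_mul_of_nonneg_left h10 (by positivity)
        · -- vertex on the right
          obtain ⟨a, ha, A', hA1, hA2, hA3, hA4, hA5⟩ := hR1
          refine hacc A' hA5 (hst.minor A' hA1 hA2 c E _
            (hw.minorR hF hrk.inj g hg hr x hx1 hx2 ?_ hleft a ha (hst.rng _ a ha) _
              (fun l _ => hA1 (pos l)) hA3 ?_ hhull))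
          · intro h3
            by_contra h4
            exact hright ⟨h3, not_lt.1 h4⟩
          · intro l hl hlx y hy
            obtain ⟨h3, h4⟩ := hst.col_tr c E hE x l hxE hl (Ne.symm hlx)
            rw [hA4 (pos l) (Ne.symm h3) y hy, h4]
      · -- vertex on the left
        obtain ⟨a, ha, A', hA1, hA2, hA3, hA4, hA5⟩ := hL1
        refine hacc A' hA5 (hst.minor A' hA1 hA2 c E _
          (hw.minorL hF hrk.inj g hg hr x hx1 hx2 ?_ a ha (hst.rng _ a ha) _
            (fun l _ => hA1 (pos l)) hA3 ?_ hhull))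
        · intro h' h3
          by_contra h4
          exact hleft ⟨h', h3, not_lt.1 h4⟩
        · intro l hl hlx y hy
          obtain ⟨h3, h4⟩ := hst.col_tr c E hE x l hxE hl (Ne.symm hlx)
          rw [hA4 (pos l) (Ne.symm h3) y hy, h4]
    · -- gain
      unfold NoGain at hng
      push Not at hng
      obtain ⟨e, A', hA', hPhi⟩ := hng
      rw [hm] at hPhi
      have hst' : State N t rk F col v A' L pos J := hst.refine v (Nat.le_succ v) A'
        (fun i => (hA' i).trans (third_sub v b A e i))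
        (fun i => ⟨_, (hA' i).trans (third_hull v b A e hb i)⟩)
      refine ih A' J hst' ?_ ?_
      · refine h1.trans ?_
        calc Phi T K (v + 1) A * β ^ (v + 1) = (β * Phi T K (v + 1) A) * β ^ v := by
              rw [pow_succ]; ring
          _ ≤ Phi T K v A' * β ^ v := mul_le_mul_of_nonneg_right hPhi (by positivity)
      · refine h2.trans ?_
        apply mul_le_mul_of_nonneg_right _ (by positivity)
        refine le_trans ?_ hPhi
        calc Phi T K (v + 1) A = 1 * Phi T K (v + 1) A := (one_mul _).symm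
          _ ≤ β * Phi T K (v + 1) A := mul_le_mul_of_nonneg_right hβ1.le hPhi0.le

theorem exists_sol (q k : ℕ) (hq : 0 < q) (hk : 1 ≤ k) (r : ℕ) :
    ∀ (m : ℕ) (ζ : ℝ), 0 < ζ → ∃ C, Sol q k r m ζ C := by
  have hq' : (0 : ℝ) < q := by exact_mod_cast hq
  have hq1 : (1 : ℝ) ≤ q := by exact_mod_cast hq
  induction r with
  | zero =>
    intro m ζ _
    refine ⟨0, ?_⟩
    intro t _ N rk F _ _ _ ι _ _ _ b v _ col A L pos J _ hr
    exact absurd hr (Nat.not_lt_zero _)
  | succ r ih =>
    intro m ζ hζ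
    -- constants
    obtain ⟨s, hs⟩ := exists_pow_lt_of_lt_one (show (0 : ℝ) < ζ / 2 by linarith)
      (show (1 / 2 : ℝ) < 1 by norm_num)
    set δ : ℝ := (1 / 2) ^ s with hδ
    have hδ0 : 0 < δ := by positivity
    have hδ1 : δ ≤ 1 := pow_le_one₀ (by norm_num) (by norm_num)
    set C' : ℕ := 32 * q * 2 ^ m * 4 ^ s with hC'
    have hC'1 : 1 ≤ C' := Nat.one_le_iff_ne_zero.2 (by positivity)
    have hδ2 : δ ^ 2 = (1 / 4) ^ s := by
      rw [hδ, ← pow_mul, mul_comm, pow_mul]; norm_num
    have hρC : (4 : ℝ) * 2 ^ m ≤ δ ^ 2 / (8 * q) * C' := by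
      rw [hδ2, hC']
      push_cast
      have h4 : ((1 : ℝ) / 4) ^ s * 4 ^ s = 1 := by rw [← mul_pow]; norm_num
      have : ((1 : ℝ) / 4) ^ s / (8 * q) * (32 * q * 2 ^ m * 4 ^ s) =
          (4 * 2 ^ m) * (((1 : ℝ) / 4) ^ s * 4 ^ s) := by
        field_simp
        ring
      rw [this, h4, mul_one]
    set κ : ℝ := δ ^ 2 / (8 * q) * (1 / 4) ^ C' / 2 with hκ
    have hκ0 : 0 < κ := by rw [hκ]; positivity
    have hκ1 : κ ≤ 1 := by
      have h1 : δ ^ 2 / (8 * q) ≤ 1 := by
        rw [div_le_one (by positivity)]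
        have : δ ^ 2 ≤ 1 := pow_le_one₀ hδ0.le hδ1
        linarith
      have h2 : ((1 : ℝ) / 4) ^ C' ≤ 1 := pow_le_one₀ (by norm_num) (by norm_num)
      have h3 : δ ^ 2 / (8 * q) * (1 / 4) ^ C' ≤ 1 := by
        calc δ ^ 2 / (8 * q) * (1 / 4) ^ C' ≤ 1 * 1 :=
              mul_le_mul h1 h2 (by positivity) (by norm_num)
          _ = 1 := by norm_num
      rw [hκ]; linarith
    obtain ⟨a, ha⟩ := exists_pow_lt_of_lt_one hκ0 (show (1 / 2 : ℝ) < 1 by norm_num)
    set β : ℝ := 1 + 1 / (2 * 3 ^ m) with hβ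
    have hβ1 : 1 < β := by
      rw [hβ]
      have : (0 : ℝ) < 1 / (2 * 3 ^ m) := by positivity
      linarith
    obtain ⟨c3, hc3⟩ := pow_unbounded_of_one_lt 2 hβ1
    have hc2 : 1 ≤ κ * β ^ (c3 * a) := by
      rw [pow_mul]
      calc (1 : ℝ) = (1 / 2) ^ a * 2 ^ a := by rw [← mul_pow]; norm_num
        _ ≤ κ * (β ^ c3) ^ a :=
            mul_le_mul ha.le (pow_le_pow_left₀ (by norm_num) hc3.le a) (by positivity) hκ0.le
    obtain ⟨Cn, hCn⟩ := ih (m + 1) (δ ^ 4 / (64 * q ^ 2)) (by positivity)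
    set M := q * 2 ^ m with hM
    set D := 2 * C' * (a * M + 1) with hD
    refine ⟨Cn * (1 + 2 * s * D) + 1 + (c3 * a + 1) * M + c3 * (1 + s * D), ?_⟩
    intro t ht N rk F hF hrk hLM ι _ _ hm b v hv col A L pos J hst hrank hdens hvol
    set l := (a * M + 1) * (t + b) with hl
    have hl1 : 1 ≤ l := Nat.one_le_iff_ne_zero.2 (by
      rw [hl]
      have : 0 < t + b := by omega
      positivity)
    set K := 2 * C' * l with hK
    have hKD : K = D * (t + b) := by rw [hK, hl, hD]; ring
    have hvol0 : 0 < vol A := by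
      have h3 : (0 : ℝ) < 2 ^ b * vol A := lt_of_lt_of_le (by positivity) hvol
      exact (mul_pos_iff_of_pos_left (by positivity)).1 h3
    have hmu : mu t L J ≤ M * t := by
      have h3 := hst.card_le
      rw [hm] at h3
      exact mu_le t L J m h3
    have hdn : 2 * δ ≤ dens (Right F col) A := by
      unfold dens
      rw [le_div_iff₀ hvol0]
      refine le_trans ?_ hdens
      apply mul_le_mul_of_nonneg_right _ hvol0.le
      linarith
    have hPhi : (1 / 2) ^ b * (2 * δ) ^ K ≤ Phi (Right F col) K v A := by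
      unfold Phi
      rw [hm, le_div_iff₀ (by positivity)]
      have h3 : (1 / 2 : ℝ) ^ b * ((3 : ℝ) ^ v) ^ m ≤ vol A := by
        calc (1 / 2 : ℝ) ^ b * ((3 : ℝ) ^ v) ^ m ≤ (1 / 2) ^ b * (2 ^ b * vol A) :=
              mul_le_mul_of_nonneg_left hvol (by positivity)
          _ = ((1 / 2) * 2) ^ b * vol A := by rw [mul_pow]; ring
          _ = vol A := by norm_num
      calc (1 / 2) ^ b * (2 * δ) ^ K * ((3 : ℝ) ^ v) ^ m
          = ((1 / 2 : ℝ) ^ b * ((3 : ℝ) ^ v) ^ m) * (2 * δ) ^ K := by ring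
        _ ≤ vol A * dens (Right F col) A ^ K :=
            mul_le_mul h3 (pow_le_pow_left₀ (by positivity) hdn K) (by positivity) hvol0.le
    have hδK : δ ^ K = (1 / 2) ^ (s * K) := by rw [hδ, ← pow_mul]
    refine climb hq hk δ hδ0 C' l (c3 * a) Cn (2 * s * K) (Cn * (t + 2 * s * K) + 1) hC'1 hl1 hρC
      hκ1 hc2 hCn ?_ t ht le_rfl N rk F hF hrk hLM ι hm col L pos hrank v A J hst ?_ ?_
    · -- b'
      rw [← hK, hδ, ← pow_mul]
      have e1 : s * (2 * K) = 2 * s * K := by ring
      rw [e1, ← mul_pow]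
      norm_num
    · -- H1
      have hexp : (Cn * (t + 2 * s * K) + 1 + (c3 * a + 1) * mu t L J) + c3 * (b + s * K) ≤ v := by
        refine le_trans ?_ hv
        have e1 : Cn * (t + 2 * s * K) ≤ Cn * (1 + 2 * s * D) * (t + b) := by
          rw [hKD]
          have : t + 2 * s * (D * (t + b)) ≤ (1 + 2 * s * D) * (t + b) := by
            have : (1 + 2 * s * D) * (t + b) = (t + b) + 2 * s * (D * (t + b)) := by ring
            omega
          calc Cn * (t + 2 * s * (D * (t + b))) ≤ Cn * ((1 + 2 * s * D) * (t + b)) :=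
                Nat.mul_le_mul_left _ this
            _ = _ := by ring
        have e2 : (c3 * a + 1) * mu t L J ≤ (c3 * a + 1) * M * (t + b) := by
          calc (c3 * a + 1) * mu t L J ≤ (c3 * a + 1) * (M * t) := Nat.mul_le_mul_left _ hmu
            _ ≤ (c3 * a + 1) * (M * (t + b)) :=
                Nat.mul_le_mul_left _ (Nat.mul_le_mul_left _ (Nat.le_add_right _ _))
            _ = _ := by ring
        have e3 : c3 * (b + s * K) ≤ c3 * (1 + s * D) * (t + b) := by
          rw [hKD]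
          have : b + s * (D * (t + b)) ≤ (1 + s * D) * (t + b) := by
            have : (1 + s * D) * (t + b) = (t + b) + s * (D * (t + b)) := by ring
            omega
          calc c3 * (b + s * (D * (t + b))) ≤ c3 * ((1 + s * D) * (t + b)) :=
                Nat.mul_le_mul_left _ this
            _ = _ := by ring
        have e4 : (Cn * (1 + 2 * s * D) + 1 + (c3 * a + 1) * M + c3 * (1 + s * D)) * (t + b) =
            Cn * (1 + 2 * s * D) * (t + b) + (t + b) + (c3 * a + 1) * M * (t + b) +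
              c3 * (1 + s * D) * (t + b) := by ring
        rw [e4]
        omega
      have h4 : β ^ ((Cn * (t + 2 * s * K) + 1 + (c3 * a + 1) * mu t L J)) * β ^ (c3 * (b + s * K)) ≤
          β ^ v := by
        rw [← pow_add]
        exact pow_le_pow_right₀ hβ1.le hexp
      have h5 : (2 : ℝ) ^ (b + s * K) ≤ β ^ (c3 * (b + s * K)) := by
        rw [pow_mul]
        exact pow_le_pow_left₀ (by norm_num) hc3.le _
      have h6 : (1 / 2 : ℝ) ^ (b + s * K) ≤ Phi (Right F col) K v A := by
        refine le_trans ?_ hPhi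
        rw [pow_add, ← hδK]
        apply mul_le_mul_of_nonneg_left _ (by positivity)
        exact pow_le_pow_left₀ hδ0.le (by linarith) K
      have h7 : 0 < β ^ ((Cn * (t + 2 * s * K) + 1 + (c3 * a + 1) * mu t L J)) := by positivity
      calc β ^ ((Cn * (t + 2 * s * K) + 1 + (c3 * a + 1) * mu t L J))
          = β ^ ((Cn * (t + 2 * s * K) + 1 + (c3 * a + 1) * mu t L J)) *
              ((1 / 2 : ℝ) ^ (b + s * K) * 2 ^ (b + s * K)) := by
            rw [← mul_pow]; norm_num
        _ ≤ β ^ ((Cn * (t + 2 * s * K) + 1 + (c3 * a + 1) * mu t L J)) *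
              ((1 / 2 : ℝ) ^ (b + s * K) * β ^ (c3 * (b + s * K))) :=
            mul_le_mul_of_nonneg_left (mul_le_mul_of_nonneg_left h5 (by positivity)) h7.le
        _ = (1 / 2 : ℝ) ^ (b + s * K) *
              (β ^ ((Cn * (t + 2 * s * K) + 1 + (c3 * a + 1) * mu t L J)) *
                β ^ (c3 * (b + s * K))) := by ring
        _ ≤ Phi (Right F col) K v A * β ^ v :=
            mul_le_mul h6 h4 (by positivity) (Phi_nonneg _ _ _ _)
    · -- H2
      have h4 : (1 / 2 : ℝ) ^ (a * (M * t)) ≤ κ ^ (mu t L J) := by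
        calc (1 / 2 : ℝ) ^ (a * (M * t)) = ((1 / 2) ^ a) ^ (M * t) := by rw [pow_mul]
          _ ≤ ((1 / 2) ^ a) ^ (mu t L J) :=
              pow_le_pow_of_le_one (by positivity) (pow_le_one₀ (by norm_num) (by norm_num)) hmu
          _ ≤ κ ^ (mu t L J) := pow_le_pow_left₀ (by positivity) ha.le _
      have hexp : 1 + b + a * (M * t) ≤ K := by
        rw [hKD, hD]
        have e1 : (a * M + 1) * (t + b) = a * (M * t) + a * M * b + t + b := by ring
        have e2 : 2 * C' * (a * M + 1) * (t + b) = C' * (2 * ((a * M + 1) * (t + b))) := by ring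
        rw [e2]
        calc 1 + b + a * (M * t) ≤ 2 * ((a * M + 1) * (t + b)) := by rw [e1]; omega
          _ = 1 * (2 * ((a * M + 1) * (t + b))) := (one_mul _).symm
          _ ≤ _ := Nat.mul_le_mul_right _ hC'1
      have h5 : (2 : ℝ) * δ ^ K ≤ ((1 / 2) ^ b * (2 * δ) ^ K) * (1 / 2) ^ (a * (M * t)) := by
        have e1 : ((1 / 2 : ℝ) ^ b * (2 * δ) ^ K) * (1 / 2) ^ (a * (M * t)) =
            δ ^ K * ((1 / 2) ^ (b + a * (M * t)) * 2 ^ K) := by
          rw [mul_pow, pow_add]; ring
        rw [e1]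
        have e2 : (2 : ℝ) ≤ (1 / 2) ^ (b + a * (M * t)) * 2 ^ K := by
          calc (2 : ℝ) = ((1 / 2) ^ (b + a * (M * t)) * 2 ^ (b + a * (M * t))) * 2 := by
                rw [← mul_pow]; norm_num
            _ = (1 / 2) ^ (b + a * (M * t)) * 2 ^ (1 + b + a * (M * t)) := by
                rw [show 1 + b + a * (M * t) = (b + a * (M * t)) + 1 by ring, pow_succ]; ring
            _ ≤ (1 / 2) ^ (b + a * (M * t)) * 2 ^ K :=
                mul_le_mul_of_nonneg_left (pow_le_pow_right₀ (by norm_num) hexp) (by positivity)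
        calc (2 : ℝ) * δ ^ K = δ ^ K * 2 := by ring
          _ ≤ _ := mul_le_mul_of_nonneg_left e2 (by positivity)
      exact h5.trans (mul_le_mul hPhi h4 (by positivity) (Phi_nonneg _ _ _ _))

end Pool.Agent.helper890_gap
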