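import Pool.Agent.helper890_gap.Count

/-!
The consequences of a maximal potential: all thirds have large potential, and all boxes of
positive proportion have almost full density.
-/

set_option autoImplicit false
set_option linter.unusedSectionVars false

namespace Pool.Agent.helper890_gap

open Finset

/-- the third of the interval `[b, b + 3 ^ (v+1))` which contains `a` -/
def thd (v b a : ℕ) : Fin 3 := if a < b + 3 ^ v then 0 else if a < b + 2 * 3 ^ v then 1 else 2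

section

variable {ι : Type} [Fintype ι] [DecidableEq ι]

/-- the box of the thirds chosen by `e` -/
def third (v : ℕ) (b : ι → ℕ) (A : ι → Finset ℕ) (e : ι → Fin 3) : ι → Finset ℕ :=
  fun i => (A i).filter (fun a => thd v (b i) a = e i)

theorem third_sub (v : ℕ) (b : ι → ℕ) (A : ι → Finset ℕ) (e : ι → Fin 3) (i : ι) :
    third v b A e i ⊆ A i := Finset.filter_subset _ _

theorem third_hull (v : ℕ) (b : ι → ℕ) (A : ι → Finset ℕ) (e : ι → Fin 3)
    (hb : ∀ i, A i ⊆ Finset.Ico (b i) (b i + 3 ^ (v + 1))) (i : ι) :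
    third v b A e i ⊆ Finset.Ico (b i + (e i : ℕ) * 3 ^ v) (b i + (e i : ℕ) * 3 ^ v + 3 ^ v) := by
  intro a ha
  unfold third at ha
  rw [Finset.mem_filter] at ha
  obtain ⟨ha, he⟩ := ha
  have h1 := hb i ha
  rw [Finset.mem_Ico] at h1 ⊢
  have h3 : 3 ^ (v + 1) = 3 * 3 ^ v := by ring
  rw [h3] at h1
  rw [← he]
  unfold thd
  have hv : 0 < 3 ^ v := by positivity
  split_ifs with h h'
  · simp; omega
  · simp; omega
  · simp; omega

/-- no refinement of a third of the box has a larger potential by the factor `1 + η` -/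
def NoGain (T : (ι → ℕ) → Prop) (K v : ℕ) (b : ι → ℕ) (A : ι → Finset ℕ) : Prop :=
  ∀ (e : ι → Fin 3) (A' : ι → Finset ℕ), (∀ i, A' i ⊆ third v b A e i) →
    Phi T K v A' < (1 + 1 / (2 * 3 ^ Fintype.card ι)) * Phi T K (v + 1) A

theorem NoGain.pos {T : (ι → ℕ) → Prop} {K v : ℕ} {b : ι → ℕ} {A : ι → Finset ℕ}
    (h : NoGain T K v b A) : 0 < Phi T K (v + 1) A := by
  have h1 := h (fun _ => 0) (fun _ => ∅) (fun i => Finset.empty_subset _)
  have h2 := Phi_nonneg T K v (fun _ : ι => (∅ : Finset ℕ))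
  have h3 : 0 < (1 + 1 / (2 * 3 ^ Fintype.card ι)) * Phi T K (v + 1) A := lt_of_le_of_lt h2 h1
  have h4 : (0 : ℝ) < 1 + 1 / (2 * 3 ^ Fintype.card ι) := by positivity
  exact (mul_pos_iff_of_pos_left h4).1 h3

theorem NoGain.third_ge {T : (ι → ℕ) → Prop} {K v : ℕ} {b : ι → ℕ} {A : ι → Finset ℕ}
    (h : NoGain T K v b A) (e : ι → Fin 3) :
    Phi T K (v + 1) A / 2 ≤ Phi T K v (third v b A e) := by
  have hs := Phi_sum_thirds T K v A (fun i a => thd v (b i) a)
  have hs' : (3 : ℝ) ^ (Fintype.card ι) * Phi T K (v + 1) A ≤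
      ∑ e : ι → Fin 3, Phi T K v (third v b A e) := hs
  rw [← Finset.add_sum_erase _ _ (Finset.mem_univ e)] at hs'
  set φ := Phi T K (v + 1) A with hφ
  set m := Fintype.card ι with hm
  have hφ0 : 0 < φ := h.pos
  have h1 : ∑ e' ∈ Finset.univ.erase e, Phi T K v (third v b A e') ≤
      ((Finset.univ.erase e : Finset (ι → Fin 3)).card) • ((1 + 1 / (2 * 3 ^ m)) * φ) :=
    Finset.sum_le_card_nsmul _ _ _ (fun e' _ => (h e' _ (fun i => Finset.Subset.refl _)).le)
  have h2 : ((Finset.univ.erase e : Finset (ι → Fin 3)).card : ℝ) = 3 ^ m - 1 := by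
    rw [Finset.card_erase_of_mem (Finset.mem_univ _), Finset.card_univ, Fintype.card_fun,
      Fintype.card_fin, Nat.cast_sub (Nat.one_le_pow _ _ (by norm_num))]
    push_cast
    rfl
  rw [nsmul_eq_mul, h2] at h1
  have h3 : ((3 : ℝ) ^ m - 1) * ((1 + 1 / (2 * 3 ^ m)) * φ) ≤ 3 ^ m * φ - φ / 2 := by
    have e1 : ((3 : ℝ) ^ m - 1) * ((1 + 1 / (2 * 3 ^ m)) * φ) =
        3 ^ m * φ - φ + φ * ((3 ^ m - 1) * (1 / (2 * 3 ^ m))) := by ring
    have e2 : ((3 : ℝ) ^ m - 1) * (1 / (2 * 3 ^ m)) ≤ 1 / 2 := by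
      have : (0 : ℝ) < 3 ^ m := by positivity
      rw [mul_one_div, div_le_iff₀ (by positivity)]
      linarith
    rw [e1]
    nlinarith
  linarith

theorem eta_le_one (m : ℕ) : (1 : ℝ) + 1 / (2 * 3 ^ m) ≤ 2 := by
  have h1 : (1 : ℝ) ≤ 3 ^ m := one_le_pow₀ (by norm_num)
  have : 1 / (2 * (3 : ℝ) ^ m) ≤ 1 := by
    rw [div_le_one (by positivity)]; linarith
  linarith

/-- Density in a large sub-box of a third. -/
theorem NoGain.dens_ge {T : (ι → ℕ) → Prop} {K v : ℕ} {b : ι → ℕ} {A : ι → Finset ℕ}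
    (h : NoGain T K v b A) (hK : 1 ≤ K) (ρ C : ℝ) (hC : 0 ≤ C)
    (hρC : 4 * 2 ^ Fintype.card ι ≤ ρ * C) (e : ι → Fin 3) (A' : ι → Finset ℕ)
    (hA' : ∀ i, A' i ⊆ third v b A e i) (hvol : ρ * vol (third v b A e) ≤ vol A') :
    (1 - C / K) * dens T (third v b A e) * vol A' ≤ cnt T A' := by
  classical
  set B := third v b A e with hB
  set φ := Phi T K (v + 1) A with hφ
  have hφ0 : 0 < φ := h.pos
  have hBge : φ / 2 ≤ Phi T K v B := h.third_ge e
  have hBpos : 0 < Phi T K v B := by linarith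
  -- the blocks
  set cl : ι → ℕ → Bool := fun i a => decide (a ∈ A' i) with hcl
  set bx : (ι → Bool) → ι → Finset ℕ := fun s i => (B i).filter (fun a => cl i a = s i) with hbx
  have hcnt : cnt T B = ∑ s : ι → Bool, cnt T (bx s) := cnt_partition T B cl
  have hvolB : vol B = ∑ s : ι → Bool, vol (bx s) := vol_partition B cl
  have htrue : bx (fun _ => true) = A' := by
    funext i
    ext a
    simp only [hbx, hcl, Finset.mem_filter, decide_eq_true_eq]
    exact ⟨fun h => h.2, fun h => ⟨hA' i h, h⟩⟩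
  have hdpos : 0 < dens T B := by
    rcases (dens_nonneg T B).eq_or_lt with h0 | h0
    · exfalso
      unfold Phi at hBpos
      rw [← h0, zero_pow (by omega)] at hBpos
      simp at hBpos
    · exact h0
  have hd : (∑ s : ι → Bool, cnt T (bx s)) / (∑ s : ι → Bool, vol (bx s)) = dens T B := by
    rw [← hcnt, ← hvolB]; rfl
  have key := block_dens (Finset.univ : Finset (ι → Bool)) (fun s => vol (bx s))
    (fun s => cnt T (bx s)) K ρ C (fun s _ => vol_nonneg _)
    (fun s _ h0 => cnt_eq_zero_of_vol T _ h0) hK (by rw [hd]; exact hdpos) hC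
    (by
      rw [Finset.card_univ, Fintype.card_fun, Fintype.card_bool]
      push_cast
      exact hρC)
    (by
      intro s _
      rw [hd, ← hvolB]
      have h1 := h e (bx s) (fun i => Finset.filter_subset _ _)
      have h2 : Phi T K v (bx s) < 4 * Phi T K v B := by
        have h3 := eta_le_one (Fintype.card ι)
        have h4 : (1 + 1 / (2 * (3 : ℝ) ^ Fintype.card ι)) * φ ≤ 2 * φ :=
          mul_le_mul_of_nonneg_right h3 hφ0.le
        linarith
      unfold Phi at h2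
      rw [← mul_div_assoc, div_lt_div_iff_of_pos_right (by positivity)] at h2
      exact h2)
    (fun _ => true) (Finset.mem_univ _) (by rw [htrue, ← hvolB]; exact hvol)
  rw [hd, htrue] at key
  exact key

theorem quarter_pow (C l : ℕ) (hl : 1 ≤ l) (hC : 1 ≤ C) :
    ((1 : ℝ) / 4) ^ C ≤ (1 - (C : ℝ) / ((2 * C * l : ℕ) : ℝ)) ^ (2 * C * l) := by
  have hl' : (0 : ℝ) < l := by exact_mod_cast hl
  have hC' : (0 : ℝ) < C := by exact_mod_cast hC
  have e1 : (C : ℝ) / ((2 * C * l : ℕ) : ℝ) = 1 / (2 * l) := by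
    push_cast
    field_simp
  rw [e1]
  have hle : (1 : ℝ) / (2 * l) ≤ 1 / 2 := by
    have : (1 : ℝ) ≤ l := by exact_mod_cast hl
    apply one_div_le_one_div_of_le <;> linarith
  have h1 : (1 : ℝ) / 2 ≤ (1 - 1 / (2 * (l : ℝ))) ^ l := by
    have := one_add_mul_le_pow (a := -(1 / (2 * (l : ℝ)))) (by linarith) l
    have e2 : 1 + (l : ℝ) * -(1 / (2 * (l : ℝ))) = 1 / 2 := by field_simp; norm_num
    rw [e2] at this
    simpa [sub_eq_add_neg] using this
  have h2 : (1 : ℝ) / 4 ≤ (1 - 1 / (2 * (l : ℝ))) ^ (2 * l) := by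
    rw [mul_comm 2 l, pow_mul]
    have : ((1 : ℝ) / 2) ^ 2 ≤ ((1 - 1 / (2 * (l : ℝ))) ^ l) ^ 2 :=
      pow_le_pow_left₀ (by norm_num) h1 2
    calc (1 : ℝ) / 4 = (1 / 2) ^ 2 := by norm_num
      _ ≤ _ := this
  calc ((1 : ℝ) / 4) ^ C ≤ ((1 - 1 / (2 * (l : ℝ))) ^ (2 * l)) ^ C :=
        pow_le_pow_left₀ (by norm_num) h2 C
    _ = (1 - 1 / (2 * (l : ℝ))) ^ (2 * C * l) := by
        rw [← pow_mul]; congr 1; ring

/-- The potential of a large sub-box of a third. -/
theorem NoGain.phi_ge {T : (ι → ℕ) → Prop} {v : ℕ} {b : ι → ℕ} {A : ι → Finset ℕ} (C l : ℕ)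
    (hC : 1 ≤ C) (hl : 1 ≤ l)
    (h : NoGain T (2 * C * l) v b A) (ρ : ℝ) (hρ : 0 < ρ)
    (hρC : 4 * 2 ^ Fintype.card ι ≤ ρ * C) (e : ι → Fin 3) (A' : ι → Finset ℕ)
    (hA' : ∀ i, A' i ⊆ third v b A e i) (hvol : ρ * vol (third v b A e) ≤ vol A') :
    ρ * (1 / 4) ^ C / 2 * Phi T (2 * C * l) (v + 1) A ≤ Phi T (2 * C * l) v A' := by
  set B := third v b A e with hB
  have hφ0 : 0 < Phi T (2 * C * l) (v + 1) A := h.pos
  have hBge : Phi T (2 * C * l) (v + 1) A / 2 ≤ Phi T (2 * C * l) v B := h.third_ge e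
  have hBpos : 0 < Phi T (2 * C * l) v B := by linarith
  have hK : 1 ≤ 2 * C * l := Nat.one_le_iff_ne_zero.2 (by positivity)
  have hd := h.dens_ge hK ρ C (Nat.cast_nonneg _) hρC e A' hA' hvol
  have hvB : 0 < vol B := by
    rcases (vol_nonneg B).eq_or_lt with h0 | h0
    · exfalso
      unfold Phi at hBpos
      rw [← h0] at hBpos
      simp at hBpos
    · exact h0
  have hvA : 0 < vol A' := lt_of_lt_of_le (mul_pos hρ hvB) hvol
  have hle : (1 : ℝ) / (2 * l) ≤ 1 / 2 := by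
    have : (1 : ℝ) ≤ l := by exact_mod_cast hl
    apply one_div_le_one_div_of_le <;> linarith
  have hfac : (0 : ℝ) ≤ 1 - (C : ℝ) / ((2 * C * l : ℕ) : ℝ) := by
    have hl' : (0 : ℝ) < l := by exact_mod_cast hl
    have hC' : (0 : ℝ) < C := by exact_mod_cast hC
    have e1 : (C : ℝ) / ((2 * C * l : ℕ) : ℝ) = 1 / (2 * l) := by
      push_cast
      field_simp
    rw [e1]; linarith
  have hdens : (1 - (C : ℝ) / ((2 * C * l : ℕ) : ℝ)) * dens T B ≤ dens T A' := by
    unfold dens at *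
    rw [le_div_iff₀ hvA]
    exact hd
  have h1 : (1 / 4 : ℝ) ^ C * dens T B ^ (2 * C * l) ≤ dens T A' ^ (2 * C * l) := by
    calc (1 / 4 : ℝ) ^ C * dens T B ^ (2 * C * l)
        ≤ (1 - (C : ℝ) / ((2 * C * l : ℕ) : ℝ)) ^ (2 * C * l) * dens T B ^ (2 * C * l) :=
          mul_le_mul_of_nonneg_right (quarter_pow C l hl hC) (pow_nonneg (dens_nonneg _ _) _)
      _ = ((1 - (C : ℝ) / ((2 * C * l : ℕ) : ℝ)) * dens T B) ^ (2 * C * l) := by rw [mul_pow]
      _ ≤ dens T A' ^ (2 * C * l) :=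
          pow_le_pow_left₀ (mul_nonneg hfac (dens_nonneg _ _)) hdens _
  have h2 : ρ * (1 / 4) ^ C * Phi T (2 * C * l) v B ≤ Phi T (2 * C * l) v A' := by
    unfold Phi
    rw [← mul_div_assoc]
    apply div_le_div_of_nonneg_right _ (by positivity)
    calc ρ * (1 / 4) ^ C * (vol B * dens T B ^ (2 * C * l))
        = (ρ * vol B) * ((1 / 4) ^ C * dens T B ^ (2 * C * l)) := by ring
      _ ≤ vol A' * dens T A' ^ (2 * C * l) :=
          mul_le_mul hvol h1 (mul_nonneg (by positivity) (pow_nonneg (dens_nonneg _ _) _)) hvA.le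
  calc ρ * (1 / 4) ^ C / 2 * Phi T (2 * C * l) (v + 1) A
      = ρ * (1 / 4) ^ C * (Phi T (2 * C * l) (v + 1) A / 2) := by ring
    _ ≤ ρ * (1 / 4) ^ C * Phi T (2 * C * l) v B :=
        mul_le_mul_of_nonneg_left hBge (by positivity)
    _ ≤ _ := h2

end

end Pool.Agent.helper890_gap
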