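import Pool.Agent.helper890_gap.NoGain

/-!
The splitting lemma: if the potential cannot be increased, then for each position there is a
colour which allows each of the three kinds of steps.
-/

set_option autoImplicit false
set_option linter.unusedSectionVars false

namespace Pool.Agent.helper890_gap

open Finset

/-- all pairs of places of the tuple have the prescribed colours -/
def Right {q : ℕ} {ι : Type} (F : ℕ → ℕ → Fin q) (col : ι → ι → Fin q) (s : ι → ℕ) : Prop :=
  ∀ i j, i ≠ j → F (s i) (s j) = col i j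

section

variable {q : ℕ} {ι : Type} [Fintype ι] [DecidableEq ι]

/-- product of the sizes of the sets other than the one at `x` -/
noncomputable def Qo (B : ι → Finset ℕ) (x : ι) : ℝ := ∏ i ∈ univ.erase x, ((B i).card : ℝ)

/-- product of the sizes of the neighbourhoods of `a` in the sets other than the one at `x` -/
noncomputable def Do (F : ℕ → ℕ → Fin q) (col : ι → ι → Fin q) (B : ι → Finset ℕ) (x : ι) (a : ℕ) : ℝ :=
  ∏ i ∈ univ.erase x, (((B i).filter (fun y => F a y = col x i)).card : ℝ)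

theorem vol_eq_mul (B : ι → Finset ℕ) (x : ι) : vol B = ((B x).card : ℝ) * Qo B x := by
  unfold vol Qo
  rw [Finset.mul_prod_erase univ (fun i => ((B i).card : ℝ)) (Finset.mem_univ x)]

theorem Qo_nonneg (B : ι → Finset ℕ) (x : ι) : 0 ≤ Qo B x := by unfold Qo; positivity

theorem Do_nonneg (F : ℕ → ℕ → Fin q) (col : ι → ι → Fin q) (B : ι → Finset ℕ) (x : ι) (a : ℕ) :
    0 ≤ Do F col B x a := by unfold Do; positivity

theorem Do_le_Qo (F : ℕ → ℕ → Fin q) (col : ι → ι → Fin q) (B : ι → Finset ℕ) (x : ι) (a : ℕ) :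
    Do F col B x a ≤ Qo B x := by
  unfold Do Qo
  exact Finset.prod_le_prod (fun _ _ => by positivity)
    (fun i _ => by exact_mod_cast Finset.card_filter_le _ _)

theorem Qo_congr (B B' : ι → Finset ℕ) (x : ι) (h : ∀ i, i ≠ x → B' i = B i) :
    Qo B' x = Qo B x := by
  unfold Qo
  exact Finset.prod_congr rfl fun i hi => by rw [h i (Finset.ne_of_mem_erase hi)]

theorem Do_congr (F : ℕ → ℕ → Fin q) (col : ι → ι → Fin q) (B B' : ι → Finset ℕ) (x : ι)
    (h : ∀ i, i ≠ x → B' i = B i) (a : ℕ) : Do F col B' x a = Do F col B x a := by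
  unfold Do
  exact Finset.prod_congr rfl fun i hi => by rw [h i (Finset.ne_of_mem_erase hi)]

theorem cnt_le_sum_Do (F : ℕ → ℕ → Fin q) (col : ι → ι → Fin q) (B : ι → Finset ℕ) (x : ι) :
    cnt (Right F col) B ≤ ∑ a ∈ B x, Do F col B x a := by
  classical
  unfold cnt
  rw [Finset.card_eq_sum_card_fiberwise (f := fun s => s x) (t := B x)
    (fun s hs => by
      have := (Finset.mem_filter.1 (Finset.mem_coe.1 hs)).1
      exact Finset.mem_coe.2 (Fintype.mem_piFinset.1 this x))]
  push_cast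
  refine Finset.sum_le_sum fun a _ => ?_
  have hsub : ({s ∈ {s ∈ Fintype.piFinset B | Right F col s} | s x = a} : Finset (ι → ℕ)) ⊆
      Fintype.piFinset (fun i => if i = x then {a} else (B i).filter (fun y => F a y = col x i)) := by
    intro s hs
    rw [Finset.mem_filter, Finset.mem_filter, Fintype.mem_piFinset] at hs
    obtain ⟨⟨h1, h2⟩, h3⟩ := hs
    rw [Fintype.mem_piFinset]
    intro i
    split_ifs with hi
    · rw [hi, h3]; exact Finset.mem_singleton_self a
    · rw [Finset.mem_filter]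
      refine ⟨h1 i, ?_⟩
      have := h2 x i (Ne.symm hi)
      rw [h3] at this
      exact this
  have hcard := Finset.card_le_card hsub
  rw [Fintype.card_piFinset, ← Finset.mul_prod_erase univ _ (Finset.mem_univ x)] at hcard
  simp only [if_true, Finset.card_singleton, one_mul] at hcard
  have h2 : ∏ i ∈ univ.erase x, (if i = x then ({a} : Finset ℕ) else (B i).filter (fun y => F a y = col x i)).card
      = ∏ i ∈ univ.erase x, ((B i).filter (fun y => F a y = col x i)).card :=
    Finset.prod_congr rfl fun i hi => by rw [if_neg (Finset.ne_of_mem_erase hi)]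
  rw [h2] at hcard
  unfold Do
  exact_mod_cast hcard

/-- the places of `S` having many right neighbours -/
noncomputable def Gd (F : ℕ → ℕ → Fin q) (col : ι → ι → Fin q) (B : ι → Finset ℕ) (x : ι) (δ : ℝ)
    (S : Finset ℕ) : Finset ℕ :=
  S.filter (fun a => δ / 2 * Qo B x ≤ Do F col B x a)

theorem Gd_card (F : ℕ → ℕ → Fin q) (col : ι → ι → Fin q) (B : ι → Finset ℕ) (x : ι) (δ : ℝ)
    (hv : 0 < vol B) (h : δ * vol B ≤ cnt (Right F col) B) :
    δ / 2 * ((B x).card : ℝ) ≤ ((Gd F col B x δ (B x)).card : ℝ) := by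
  unfold Gd
  have hQ : 0 < Qo B x := by
    rcases (Qo_nonneg B x).eq_or_lt with h0 | h0
    · rw [vol_eq_mul B x, ← h0] at hv; simp at hv
    · exact h0
  refine markov_half (B x) (fun a => Do F col B x a) (Qo B x) δ hQ
    (fun a _ => Do_le_Qo F col B x a) ?_
  rw [← vol_eq_mul]
  exact h.trans (cnt_le_sum_Do F col B x)

theorem pigeon (F : ℕ → ℕ → Fin q) (hq : 0 < q) (G G' : Finset ℕ) :
    ∃ c : Fin q, (1 / (q : ℝ)) * ((G.card : ℝ) * (G'.card : ℝ)) ≤
      ∑ a ∈ G, ((G'.filter (fun a' => F a a' = c)).card : ℝ) := by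
  have hq' : (0 : ℝ) < q := by exact_mod_cast hq
  have : Nonempty (Fin q) := ⟨⟨0, hq⟩⟩
  have hsum : ∑ c : Fin q, ∑ a ∈ G, ((G'.filter (fun a' => F a a' = c)).card : ℝ) =
      (G.card : ℝ) * (G'.card : ℝ) := by
    rw [Finset.sum_comm]
    have : ∀ a ∈ G, ∑ c : Fin q, ((G'.filter (fun a' => F a a' = c)).card : ℝ) = (G'.card : ℝ) := by
      intro a _
      rw [← Nat.cast_sum]
      congr 1
      exact (Finset.card_eq_sum_card_fiberwise (f := fun a' => F a a') (t := Finset.univ)
        (fun _ _ => Finset.mem_coe.2 (Finset.mem_univ _))).symm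
    rw [Finset.sum_congr rfl this, Finset.sum_const, nsmul_eq_mul]
  obtain ⟨c, _, hc⟩ := Finset.exists_le_of_sum_le (s := (Finset.univ : Finset (Fin q)))
    (f := fun _ => (1 / (q : ℝ)) * ((G.card : ℝ) * (G'.card : ℝ)))
    (g := fun c => ∑ a ∈ G, ((G'.filter (fun a' => F a a' = c)).card : ℝ))
    Finset.univ_nonempty (by
      rw [hsum, Finset.sum_const, Finset.card_univ, Fintype.card_fin, nsmul_eq_mul]
      field_simp
      rfl)
  exact ⟨c, hc⟩

theorem pair_swap (F : ℕ → ℕ → Fin q) (hF : ∀ a b, F a b = F b a) (G G' : Finset ℕ) (c : Fin q) :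
    ∑ a ∈ G, ((G'.filter (fun a' => F a a' = c)).card : ℝ) =
      ∑ a' ∈ G', ((G.filter (fun a => F a' a = c)).card : ℝ) := by
  have h := Finset.sum_card_bipartiteAbove_eq_sum_card_bipartiteBelow (s := G) (t := G')
    (fun a a' => F a a' = c)
  unfold Finset.bipartiteAbove Finset.bipartiteBelow at h
  have h2 : ∀ a' ∈ G', (G.filter (fun a => F a a' = c)).card = (G.filter (fun a => F a' a = c)).card := by
    intro a' _
    congr 1
    ext a
    simp only [Finset.mem_filter]
    rw [hF a a']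
  rw [Finset.sum_congr rfl h2] at h
  exact_mod_cast h

/-- the box of the neighbourhoods of `a` -/
def nbox (F : ℕ → ℕ → Fin q) (col : ι → ι → Fin q) (B' : ι → Finset ℕ) (x : ι) (c : Fin q) (a : ℕ) :
    ι → Finset ℕ :=
  fun i => if i = x then (B' x).filter (fun y => F a y = c) else (B' i).filter (fun y => F a y = col x i)

theorem nbox_sub (F : ℕ → ℕ → Fin q) (col : ι → ι → Fin q) (B' : ι → Finset ℕ) (x : ι) (c : Fin q)
    (a : ℕ) (i : ι) : nbox F col B' x c a i ⊆ B' i := by
  unfold nbox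
  split_ifs with h
  · rw [h]; exact Finset.filter_subset _ _
  · exact Finset.filter_subset _ _

theorem vol_nbox (F : ℕ → ℕ → Fin q) (col : ι → ι → Fin q) (B' : ι → Finset ℕ) (x : ι) (c : Fin q)
    (a : ℕ) : vol (nbox F col B' x c a) =
      (((B' x).filter (fun y => F a y = c)).card : ℝ) * Do F col B' x a := by
  rw [vol_eq_mul _ x]
  congr 1
  · unfold nbox; rw [if_pos rfl]
  · unfold Qo Do nbox
    exact Finset.prod_congr rfl fun i hi => by rw [if_neg (Finset.ne_of_mem_erase hi)]

/-- the places having many neighbours of colour `c` among the places of the other side -/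
noncomputable def Sel (F : ℕ → ℕ → Fin q) (G G' : Finset ℕ) (c : Fin q) : Finset ℕ :=
  G.filter (fun a => (1 / (q : ℝ)) / 2 * (G'.card : ℝ) ≤ ((G'.filter (fun a' => F a a' = c)).card : ℝ))

theorem Sel_card (F : ℕ → ℕ → Fin q) (G G' : Finset ℕ) (c : Fin q) (hG' : 0 < G'.card)
    (h : (1 / (q : ℝ)) * ((G.card : ℝ) * (G'.card : ℝ)) ≤
      ∑ a ∈ G, ((G'.filter (fun a' => F a a' = c)).card : ℝ)) :
    (1 / (q : ℝ)) / 2 * (G.card : ℝ) ≤ ((Sel F G G' c).card : ℝ) := by
  unfold Sel
  exact markov_half G (fun a => ((G'.filter (fun a' => F a a' = c)).card : ℝ)) (G'.card : ℝ)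
    (1 / (q : ℝ)) (by exact_mod_cast hG') (fun a _ => by exact_mod_cast Finset.card_filter_le _ _) h

theorem vol_nbox_ge (F : ℕ → ℕ → Fin q) (col : ι → ι → Fin q) (B B' : ι → Finset ℕ)
    (x : ι) (hBB : ∀ i, i ≠ x → B' i = B i) (c : Fin q) (δ : ℝ) (hδ : 0 < δ)
    (hv' : 0 < vol B') (h' : δ * vol B' ≤ cnt (Right F col) B') (a : ℕ)
    (ha : a ∈ Sel F (Gd F col B x δ (B x)) (Gd F col B' x δ (B' x)) c) :
    δ ^ 2 / (8 * q) * vol B' ≤ vol (nbox F col B' x c a) := by
  unfold Sel at ha
  rw [Finset.mem_filter] at ha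
  obtain ⟨ha1, ha2⟩ := ha
  unfold Gd at ha1
  rw [Finset.mem_filter] at ha1
  obtain ⟨_, ha1⟩ := ha1
  have hcard := Gd_card F col B' x δ hv' h'
  rw [vol_nbox, vol_eq_mul B' x, Do_congr F col B B' x hBB, Qo_congr B B' x hBB]
  have h1 : ((B' x).card : ℝ) * (δ / (4 * q)) ≤ (((B' x).filter (fun y => F a y = c)).card : ℝ) := by
    have h2 : (((Gd F col B' x δ (B' x)).filter (fun a' => F a a' = c)).card : ℝ) ≤
        (((B' x).filter (fun y => F a y = c)).card : ℝ) := by
      exact_mod_cast Finset.card_le_card (Finset.filter_subset_filter _ (Finset.filter_subset _ _))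
    calc ((B' x).card : ℝ) * (δ / (4 * q)) = (1 / (q : ℝ)) / 2 * (δ / 2 * ((B' x).card : ℝ)) := by
          by_cases hq : (q : ℝ) = 0
          · rw [hq]; simp
          · field_simp; ring
      _ ≤ (1 / (q : ℝ)) / 2 * ((Gd F col B' x δ (B' x)).card : ℝ) :=
          mul_le_mul_of_nonneg_left hcard (by positivity)
      _ ≤ _ := ha2
      _ ≤ _ := h2
  calc δ ^ 2 / (8 * q) * (((B' x).card : ℝ) * Qo B x)
      = (((B' x).card : ℝ) * (δ / (4 * q))) * (δ / 2 * Qo B x) := by
        by_cases hq : (q : ℝ) = 0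
        · rw [hq]; simp
        · field_simp; ring
    _ ≤ _ := mul_le_mul h1 ha1 (by have := Qo_nonneg B x; positivity) (by positivity)

/-- the colours of the box with one more position -/
def ocol (col : ι → ι → Fin q) (x : ι) (c : Fin q) : Option ι → Option ι → Fin q
  | none, none => c
  | none, some i => if i = x then c else col x i
  | some i, none => if i = x then c else col i x
  | some i, some j => col i j

theorem major_cnt (F : ℕ → ℕ → Fin q) (hF : ∀ a b, F a b = F b a) (col : ι → ι → Fin q)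
    (B B' : ι → Finset ℕ) (x : ι) (hBB : ∀ i, i ≠ x → B' i = B i) (c : Fin q) (S : Finset ℕ)
    (hS : S ⊆ B x) :
    ∑ a ∈ S, cnt (Right F col) (nbox F col B' x c a) ≤
      cnt (Right F (ocol col x c)) (fun j : Option ι => j.elim (B' x) B) := by
  classical
  unfold cnt
  rw [← Nat.cast_sum]
  have hmap : ∀ s ∈ {s ∈ Fintype.piFinset (fun j : Option ι => j.elim (B' x) B) |
      Right F (ocol col x c) s}, s (some x) ∈ B x := by
    intro s hs
    have := Fintype.mem_piFinset.1 (Finset.mem_filter.1 hs).1 (some x)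
    simpa using this
  rw [Finset.card_eq_sum_card_fiberwise (f := fun s => s (some x)) (t := B x)
    (fun s hs => Finset.mem_coe.2 (hmap s (Finset.mem_coe.1 hs)))]
  norm_cast
  refine le_trans ?_ (Finset.sum_le_sum_of_subset hS)
  refine Finset.sum_le_sum fun a ha => ?_
  refine Finset.card_le_card_of_injOn
    (fun s => fun j : Option ι => j.elim (s x) (fun i => if i = x then a else s i)) ?_ ?_
  · intro s hs
    rw [Finset.mem_coe, Finset.mem_filter, Fintype.mem_piFinset] at hs
    obtain ⟨h1, h2⟩ := hs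
    have hx : s x ∈ B' x ∧ F a (s x) = c := by
      have := h1 x
      unfold nbox at this
      rw [if_pos rfl, Finset.mem_filter] at this
      exact this
    have hi : ∀ i, i ≠ x → s i ∈ B' i ∧ F a (s i) = col x i := by
      intro i hi
      have := h1 i
      unfold nbox at this
      rw [if_neg hi, Finset.mem_filter] at this
      exact this
    rw [Finset.mem_coe, Finset.mem_filter, Finset.mem_filter, Fintype.mem_piFinset]
    refine ⟨⟨?_, ?_⟩, ?_⟩
    · intro j
      cases j with
      | none => exact hx.1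
      | some i =>
        simp only [Option.elim]
        split_ifs with h
        · rw [h]; exact hS ha
        · rw [← hBB i h]; exact (hi i h).1
    · intro j j' hjj
      cases j with
      | none =>
        cases j' with
        | none => exact absurd rfl hjj
        | some i =>
          simp only [Option.elim, ocol]
          split_ifs with h
          · rw [hF]; exact hx.2
          · exact h2 x i (Ne.symm h)
      | some i =>
        cases j' with
        | none =>
          simp only [Option.elim, ocol]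
          split_ifs with h
          · exact hx.2
          · exact h2 i x h
        | some i' =>
          simp only [Option.elim, ocol]
          have hii : i ≠ i' := fun h => hjj (by rw [h])
          by_cases h : i = x
          · have h' : i' ≠ x := fun h' => hii (h.trans h'.symm)
            rw [if_pos h, if_neg h', h]
            exact (hi i' h').2
          · rw [if_neg h]
            by_cases h' : i' = x
            · rw [if_pos h']
              have h3 := (hi i h).2
              have h4 := h2 i i' hii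
              rw [h'] at h4 ⊢
              have h5 := h2 x i (Ne.symm h)
              rw [hF, h3, ← h5, hF]
              exact h4
            · rw [if_neg h']
              exact h2 i i' hii
    · simp
  · intro s hs s' hs' hss
    have h0 : s x = s' x := by
      have := congrFun hss none
      simpa using this
    funext i
    by_cases hi : i = x
    · rw [hi]; exact h0
    · have := congrFun hss (some i)
      simpa [hi] using this

/-- a vertex to the left of the remaining places at position `x` -/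
def MinorL (F : ℕ → ℕ → Fin q) (col : ι → ι → Fin q) (K v : ℕ) (A : ι → Finset ℕ) (x : ι)
    (c : Fin q) (κ : ℝ) : Prop :=
  ∃ a ∈ A x, ∃ A' : ι → Finset ℕ, (∀ i, A' i ⊆ A i) ∧
    (∀ i, ∃ b', A' i ⊆ Finset.Ico b' (b' + 3 ^ v)) ∧
    (∀ y ∈ A' x, F a y = c ∧ a + 3 ^ v ≤ y) ∧ (∀ i, i ≠ x → ∀ y ∈ A' i, F a y = col x i) ∧
    κ * Phi (Right F col) K (v + 1) A ≤ Phi (Right F col) K v A'

/-- a vertex to the right of the remaining places at position `x` -/
def MinorR (F : ℕ → ℕ → Fin q) (col : ι → ι → Fin q) (K v : ℕ) (A : ι → Finset ℕ) (x : ι)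
    (c : Fin q) (κ : ℝ) : Prop :=
  ∃ a ∈ A x, ∃ A' : ι → Finset ℕ, (∀ i, A' i ⊆ A i) ∧
    (∀ i, ∃ b', A' i ⊆ Finset.Ico b' (b' + 3 ^ v)) ∧
    (∀ y ∈ A' x, F a y = c ∧ y + 3 ^ v ≤ a) ∧ (∀ i, i ≠ x → ∀ y ∈ A' i, F a y = col x i) ∧
    κ * Phi (Right F col) K (v + 1) A ≤ Phi (Right F col) K v A'

/-- both sides of position `x` are kept -/
def Major (F : ℕ → ℕ → Fin q) (col : ι → ι → Fin q) (K v : ℕ) (A : ι → Finset ℕ) (x : ι)
    (c : Fin q) (δ : ℝ) : Prop :=
  ∃ A'' : Option ι → Finset ℕ, (∀ i, A'' (some i) ⊆ A i) ∧ A'' none ⊆ A x ∧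
    (∀ j, ∃ b', A'' j ⊆ Finset.Ico b' (b' + 3 ^ v)) ∧
    (∀ y ∈ A'' (some x), ∀ y' ∈ A'' none, y + 3 ^ v ≤ y') ∧
    δ * vol A'' ≤ cnt (Right F (ocol col x c)) A'' ∧
    Phi (Right F col) K (v + 1) A ^ 2 / 4 * ((3 : ℝ) ^ v) ^ (Fintype.card ι + 1) ≤ vol A''

theorem hull_card (S : Finset ℕ) (b v : ℕ) (h : S ⊆ Finset.Ico b (b + 3 ^ v)) :
    (S.card : ℝ) ≤ 3 ^ v := by
  have := Finset.card_le_card h
  rw [Nat.card_Ico, Nat.add_sub_cancel_left] at this
  exact_mod_cast this

/-- **Splitting lemma.** -/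
theorem split (hq : 0 < q) (F : ℕ → ℕ → Fin q) (hF : ∀ a b, F a b = F b a) (col : ι → ι → Fin q)
    (v C l : ℕ) (hC : 1 ≤ C) (hl : 1 ≤ l) (b : ι → ℕ) (A : ι → Finset ℕ)
    (hb : ∀ i, A i ⊆ Finset.Ico (b i) (b i + 3 ^ (v + 1)))
    (hng : NoGain (Right F col) (2 * C * l) v b A) (δ : ℝ) (hδ : 0 < δ)
    (hρC : 4 * 2 ^ Fintype.card ι ≤ δ ^ 2 / (8 * q) * C)
    (hφ : 2 * δ ^ (2 * C * l) ≤ Phi (Right F col) (2 * C * l) (v + 1) A) (x : ι) :
    ∃ c : Fin q,
      MinorL F col (2 * C * l) v A x c (δ ^ 2 / (8 * q) * (1 / 4) ^ C / 2) ∧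
      MinorR F col (2 * C * l) v A x c (δ ^ 2 / (8 * q) * (1 / 4) ^ C / 2) ∧
      Major F col (2 * C * l) v A x c (δ ^ 4 / (64 * q ^ 2)) := by
  classical
  have hq' : (0 : ℝ) < q := by exact_mod_cast hq
  set K := 2 * C * l with hKdef
  have hK : 1 ≤ K := Nat.one_le_iff_ne_zero.2 (by positivity)
  set T := Right F col with hT
  set φ := Phi T K (v + 1) A with hφdef
  set e0 : ι → Fin 3 := fun _ => 0 with he0
  set e2 : ι → Fin 3 := Function.update e0 x 2 with he2
  set B0 := third v b A e0 with hB0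
  set B2 := third v b A e2 with hB2
  have hBB : ∀ i, i ≠ x → B2 i = B0 i := by
    intro i hi
    simp only [hB0, hB2, third, he2, Function.update_of_ne hi]
  have hBB' : ∀ i, i ≠ x → B0 i = B2 i := fun i hi => (hBB i hi).symm
  have hcard : ∀ e i, ((third v b A e i).card : ℝ) ≤ 3 ^ v := fun e i =>
    hull_card _ _ _ (third_hull v b A e hb i)
  have hφ0 : 0 < φ := hng.pos
  -- the densities
  have hdens : ∀ e, δ ≤ dens T (third v b A e) := by
    intro e
    have h1 := hng.third_ge e
    have h2 := Phi_le_dens T K v (third v b A e) (hcard e)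
    have h3 : δ ^ K ≤ dens T (third v b A e) ^ K := by
      have : φ / 2 ≤ dens T (third v b A e) ^ K := h1.trans h2
      linarith
    exact le_of_pow_le_pow_left₀ (by omega) (dens_nonneg _ _) h3
  have hvolp : ∀ e, φ / 2 * ((3 : ℝ) ^ v) ^ Fintype.card ι ≤ vol (third v b A e) := by
    intro e
    have h1 := hng.third_ge e
    have h2 := Phi_le_vol T K v (third v b A e)
    exact (mul_le_mul_of_nonneg_right h1 (by positivity)).trans h2
  have hvp : ∀ e, 0 < vol (third v b A e) := fun e =>
    lt_of_lt_of_le (by positivity) (hvolp e)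
  have hcnt : ∀ e, δ * vol (third v b A e) ≤ cnt T (third v b A e) := by
    intro e
    rw [← dens_mul_vol]
    exact mul_le_mul_of_nonneg_right (hdens e) (hvp e).le
  set G := Gd F col B0 x δ (B0 x) with hG
  set G' := Gd F col B2 x δ (B2 x) with hG'
  have hGc := Gd_card F col B0 x δ (hvp e0) (hcnt e0)
  have hGc' := Gd_card F col B2 x δ (hvp e2) (hcnt e2)
  have hU : 0 < ((B0 x).card : ℝ) := by
    have := hvp e0
    rw [vol_eq_mul _ x] at this
    exact pos_of_mul_pos_left this (Qo_nonneg _ _)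
  have hW : 0 < ((B2 x).card : ℝ) := by
    have := hvp e2
    rw [vol_eq_mul _ x] at this
    exact pos_of_mul_pos_left this (Qo_nonneg _ _)
  have hGpos : 0 < (G.card : ℝ) := lt_of_lt_of_le (by positivity) hGc
  have hGpos' : 0 < (G'.card : ℝ) := lt_of_lt_of_le (by positivity) hGc'
  obtain ⟨c, hc⟩ := pigeon F hq G G'
  have hc' : (1 / (q : ℝ)) * ((G'.card : ℝ) * (G.card : ℝ)) ≤
      ∑ a ∈ G', ((G.filter (fun a' => F a a' = c)).card : ℝ) := by
    rw [← pair_swap F hF G G' c, mul_comm (G'.card : ℝ)]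
    exact hc
  have hS := Sel_card F G G' c (by exact_mod_cast hGpos') hc
  have hS' := Sel_card F G' G c (by exact_mod_cast hGpos) hc'
  have hSpos : 0 < ((Sel F G G' c).card : ℝ) := lt_of_lt_of_le (by positivity) hS
  have hSpos' : 0 < ((Sel F G' G c).card : ℝ) := lt_of_lt_of_le (by positivity) hS'
  have hvn : ∀ a ∈ Sel F G G' c, δ ^ 2 / (8 * q) * vol B2 ≤ vol (nbox F col B2 x c a) :=
    fun a ha => vol_nbox_ge F col B0 B2 x hBB c δ hδ (hvp e2) (hcnt e2) a ha
  have hvn' : ∀ a ∈ Sel F G' G c, δ ^ 2 / (8 * q) * vol B0 ≤ vol (nbox F col B0 x c a) :=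
    fun a ha => vol_nbox_ge F col B2 B0 x hBB' c δ hδ (hvp e0) (hcnt e0) a ha
  have hmemU : ∀ a ∈ B0 x, a ∈ A x ∧ b x ≤ a ∧ a < b x + 3 ^ v := by
    intro a ha
    have h1 := third_hull v b A e0 hb x ha
    rw [Finset.mem_Ico] at h1
    simp only [he0, Fin.val_zero, zero_mul, add_zero] at h1
    exact ⟨third_sub v b A e0 x ha, h1.1, h1.2⟩
  have hmemW : ∀ a ∈ B2 x, a ∈ A x ∧ b x + 2 * 3 ^ v ≤ a := by
    intro a ha
    have h1 := third_hull v b A e2 hb x ha
    rw [Finset.mem_Ico] at h1
    simp only [he2, Function.update_self] at h1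
    exact ⟨third_sub v b A e2 x ha, h1.1⟩
  have hsep : ∀ a ∈ B0 x, ∀ y ∈ B2 x, a + 3 ^ v ≤ y := by
    intro a ha y hy
    have h1 := (hmemU a ha).2.2
    have h2 := (hmemW y hy).2
    omega
  have hSelU : ∀ a ∈ Sel F G G' c, a ∈ B0 x := by
    intro a ha
    unfold Sel at ha
    have := (Finset.mem_filter.1 ha).1
    rw [hG] at this
    unfold Gd at this
    exact (Finset.mem_filter.1 this).1
  have hSelW : ∀ a ∈ Sel F G' G c, a ∈ B2 x := by
    intro a ha
    unfold Sel at ha
    have := (Finset.mem_filter.1 ha).1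
    rw [hG'] at this
    unfold Gd at this
    exact (Finset.mem_filter.1 this).1
  have hρpos : 0 < δ ^ 2 / (8 * q) := by positivity
  refine ⟨c, ?_, ?_, ?_⟩
  · -- left
    obtain ⟨a, ha⟩ := Finset.card_pos.1 (by exact_mod_cast hSpos : 0 < (Sel F G G' c).card)
    refine ⟨a, (hmemU a (hSelU a ha)).1, nbox F col B2 x c a, ?_, ?_, ?_, ?_, ?_⟩
    · intro i
      exact (nbox_sub F col B2 x c a i).trans (third_sub v b A e2 i)
    · intro i
      exact ⟨_, (nbox_sub F col B2 x c a i).trans (third_hull v b A e2 hb i)⟩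
    · intro y hy
      unfold nbox at hy
      rw [if_pos rfl, Finset.mem_filter] at hy
      exact ⟨hy.2, hsep a (hSelU a ha) y hy.1⟩
    · intro i hi y hy
      unfold nbox at hy
      rw [if_neg hi, Finset.mem_filter] at hy
      exact hy.2
    · exact hng.phi_ge C l hC hl (δ ^ 2 / (8 * q)) hρpos hρC e2 _
        (fun i => nbox_sub F col B2 x c a i) (hvn a ha)
  · -- right
    obtain ⟨a, ha⟩ := Finset.card_pos.1 (by exact_mod_cast hSpos' : 0 < (Sel F G' G c).card)
    refine ⟨a, (hmemW a (hSelW a ha)).1, nbox F col B0 x c a, ?_, ?_, ?_, ?_, ?_⟩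
    · intro i
      exact (nbox_sub F col B0 x c a i).trans (third_sub v b A e0 i)
    · intro i
      exact ⟨_, (nbox_sub F col B0 x c a i).trans (third_hull v b A e0 hb i)⟩
    · intro y hy
      unfold nbox at hy
      rw [if_pos rfl, Finset.mem_filter] at hy
      exact ⟨hy.2, hsep y hy.1 a (hSelW a ha)⟩
    · intro i hi y hy
      unfold nbox at hy
      rw [if_neg hi, Finset.mem_filter] at hy
      exact hy.2
    · exact hng.phi_ge C l hC hl (δ ^ 2 / (8 * q)) hρpos hρC e0 _
        (fun i => nbox_sub F col B0 x c a i) (hvn' a ha)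
  · -- major
    have hvol'' : vol (fun j : Option ι => j.elim (B2 x) B0) = ((B2 x).card : ℝ) * vol B0 := by
      unfold vol
      rw [Fintype.prod_option]
      rfl
    refine ⟨fun j => j.elim (B2 x) B0, fun i => third_sub v b A e0 i, third_sub v b A e2 x, ?_, ?_, ?_, ?_⟩
    · intro j
      cases j with
      | none => exact ⟨_, third_hull v b A e2 hb x⟩
      | some i => exact ⟨_, third_hull v b A e0 hb i⟩
    · intro y hy y' hy'
      exact hsep y hy y' hy'
    · refine le_trans ?_ (major_cnt F hF col B0 B2 x hBB c (Sel F G G' c) (fun a ha => hSelU a ha))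
      rw [hvol'', vol_eq_mul B0 x]
      have hterm : ∀ a ∈ Sel F G G' c,
          δ / 2 * (δ ^ 2 / (8 * q) * vol B2) ≤ cnt T (nbox F col B2 x c a) := by
        intro a ha
        have h1 := hng.dens_ge hK (δ ^ 2 / (8 * q)) C (Nat.cast_nonneg _) hρC e2 _
          (fun i => nbox_sub F col B2 x c a i) (hvn a ha)
        refine le_trans ?_ h1
        have h2 : δ / 2 ≤ (1 - (C : ℝ) / (K : ℝ)) * dens T B2 := by
          have h3 : (1 : ℝ) / 2 ≤ 1 - (C : ℝ) / (K : ℝ) := by
            have hC' : (0 : ℝ) < C := by exact_mod_cast hC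
            have hl' : (1 : ℝ) ≤ l := by exact_mod_cast hl
            have e1 : (C : ℝ) / (K : ℝ) = 1 / (2 * l) := by
              rw [hKdef]; push_cast; field_simp
            have hle : (1 : ℝ) / (2 * l) ≤ 1 / 2 := by
              apply one_div_le_one_div_of_le <;> linarith
            rw [e1]; linarith
          calc δ / 2 = 1 / 2 * δ := by ring
            _ ≤ _ := mul_le_mul h3 (hdens e2) hδ.le (by linarith)
        exact mul_le_mul h2 (hvn a ha) (by have := (hvp e2).le; positivity) (by linarith [half_pos hδ])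
      have hsum : ((Sel F G G' c).card : ℝ) * (δ / 2 * (δ ^ 2 / (8 * q) * vol B2)) ≤
          ∑ a ∈ Sel F G G' c, cnt T (nbox F col B2 x c a) := by
        rw [← nsmul_eq_mul]
        exact Finset.card_nsmul_le_sum _ _ _ hterm
      refine le_trans ?_ hsum
      have hS2 : (1 / (q : ℝ)) / 2 * (δ / 2 * ((B0 x).card : ℝ)) ≤ ((Sel F G G' c).card : ℝ) :=
        (mul_le_mul_of_nonneg_left hGc (by positivity)).trans hS
      calc δ ^ 4 / (64 * q ^ 2) * (((B2 x).card : ℝ) * (((B0 x).card : ℝ) * Qo B0 x))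
          = ((1 / (q : ℝ)) / 2 * (δ / 2 * ((B0 x).card : ℝ))) *
              (δ / 2 * (δ ^ 2 / (8 * q) * (((B2 x).card : ℝ) * Qo B0 x))) := by
            field_simp
            ring
        _ ≤ ((Sel F G G' c).card : ℝ) * (δ / 2 * (δ ^ 2 / (8 * q) * (((B2 x).card : ℝ) * Qo B0 x))) :=
            mul_le_mul_of_nonneg_right hS2 (by have := Qo_nonneg B0 x; positivity)
        _ = _ := by rw [vol_eq_mul B2 x, Qo_congr B0 B2 x hBB]
    · rw [hvol'', vol_eq_mul B0 x]
      have h0 := hvolp e0
      have h2 := hvolp e2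
      rw [vol_eq_mul _ x] at h0 h2
      change φ / 2 * ((3 : ℝ) ^ v) ^ Fintype.card ι ≤ ((B0 x).card : ℝ) * Qo B0 x at h0
      change φ / 2 * ((3 : ℝ) ^ v) ^ Fintype.card ι ≤ ((B2 x).card : ℝ) * Qo B2 x at h2
      rw [Qo_congr B0 B2 x hBB] at h2
      -- `Qo ≤ (3^v)^(m-1)`
      have hQ : Qo B0 x * (3 : ℝ) ^ v ≤ ((3 : ℝ) ^ v) ^ Fintype.card ι := by
        have h3 : Qo B0 x ≤ ((3 : ℝ) ^ v) ^ (Fintype.card ι - 1) := by
          unfold Qo
          calc ∏ i ∈ univ.erase x, ((B0 i).card : ℝ) ≤ ∏ _i ∈ univ.erase x, (3 : ℝ) ^ v :=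
                Finset.prod_le_prod (fun _ _ => by positivity) (fun i _ => hcard e0 i)
            _ = _ := by
                rw [Finset.prod_const, Finset.card_erase_of_mem (Finset.mem_univ x), Finset.card_univ]
        have hpos : 0 < Fintype.card ι := Fintype.card_pos_iff.2 ⟨x⟩
        calc Qo B0 x * (3 : ℝ) ^ v ≤ ((3 : ℝ) ^ v) ^ (Fintype.card ι - 1) * (3 : ℝ) ^ v :=
              mul_le_mul_of_nonneg_right h3 (by positivity)
          _ = ((3 : ℝ) ^ v) ^ Fintype.card ι := by
              rw [← pow_succ]; congr 1; omega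
      set R := ((3 : ℝ) ^ v) ^ Fintype.card ι with hR
      have hRpos : 0 < R := by positivity
      have h3v : (0 : ℝ) < 3 ^ v := by positivity
      have hQpos : 0 < Qo B0 x := by
        rcases (Qo_nonneg B0 x).eq_or_lt with h | h
        · rw [← h, mul_zero] at h0
          exact absurd h0 (not_le.2 (by positivity))
        · exact h
      rw [pow_succ ((3 : ℝ) ^ v) (Fintype.card ι), ← hR]
      -- (φ/2 R)^2 ≤ |U| Q * |W| Q
      have hmul : (φ / 2 * R) * (φ / 2 * R) ≤
          (((B2 x).card : ℝ) * Qo B0 x) * (((B0 x).card : ℝ) * Qo B0 x) :=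
        mul_le_mul h2 h0 (by positivity) (by positivity)
      have hgoal : (φ ^ 2 / 4 * (R * 3 ^ v)) * (Qo B0 x * R) ≤
          (((B2 x).card : ℝ) * (((B0 x).card : ℝ) * Qo B0 x)) * (Qo B0 x * R) := by
        calc (φ ^ 2 / 4 * (R * 3 ^ v)) * (Qo B0 x * R)
            = ((φ / 2 * R) * (φ / 2 * R)) * (Qo B0 x * 3 ^ v) := by ring
          _ ≤ ((φ / 2 * R) * (φ / 2 * R)) * R :=
              mul_le_mul_of_nonneg_left hQ (by positivity)
          _ ≤ ((((B2 x).card : ℝ) * Qo B0 x) * (((B0 x).card : ℝ) * Qo B0 x)) * R :=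
              mul_le_mul_of_nonneg_right hmul hRpos.le
          _ = _ := by ring
      exact le_of_mul_le_mul_right hgoal (by positivity)

end

end Pool.Agent.helper890_gap
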