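import Mathlib

/-!
Addresses of the active positions, transversals, the selection lemma and the rank.
-/

set_option autoImplicit false
set_option linter.unusedSectionVars false
set_option linter.unusedVariables false

namespace Pool.Agent.helper890_gap

open Finset

section

variable {q : ℕ}

/-- the two addresses agree in the first `n` coordinates -/
def agr (n : ℕ) (u u' : Fin q → ℕ) : Prop := ∀ i : Fin q, (i : ℕ) < n → u i = u' i

instance (n : ℕ) (u u' : Fin q → ℕ) : Decidable (agr n u u') := by unfold agr; infer_instance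

/-- the first `n` coordinates of an address -/
def tr (n : ℕ) (u : Fin q → ℕ) : Fin q → ℕ := fun i => if (i : ℕ) < n then u i else 0

theorem tr_eq_iff {n : ℕ} {u u' : Fin q → ℕ} : tr n u = tr n u' ↔ agr n u u' := by
  constructor
  · intro h i hi
    have := congrFun h i
    simpa [tr, hi] using this
  · intro h
    funext i
    by_cases hi : (i : ℕ) < n
    · simp [tr, hi, h i hi]
    · simp [tr, hi]

theorem agr.refl (n : ℕ) (u : Fin q → ℕ) : agr n u u := fun _ _ => rfl
theorem agr.symm {n : ℕ} {u u' : Fin q → ℕ} (h : agr n u u') : agr n u' u := fun i hi => (h i hi).symm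
theorem agr.trans {n : ℕ} {u u' u'' : Fin q → ℕ} (h : agr n u u') (h' : agr n u' u'') : agr n u u'' :=
  fun i hi => (h i hi).trans (h' i hi)
theorem agr.mono {m n : ℕ} {u u' : Fin q → ℕ} (h : agr n u u') (hm : m ≤ n) : agr m u u' :=
  fun i hi => h i (by omega)
theorem agr_zero (u u' : Fin q → ℕ) : agr 0 u u' := fun _ hi => absurd hi (Nat.not_lt_zero _)
theorem agr_top {u u' : Fin q → ℕ} (h : agr q u u') : u = u' := funext fun i => h i i.2

theorem agr_succ {c : Fin q} {u u' : Fin q → ℕ} (h : agr (c : ℕ) u u') (hc : u c = u' c) :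
    agr ((c : ℕ) + 1) u u' := by
  intro i hi
  rcases Nat.lt_or_ge (i : ℕ) c with h1 | h1
  · exact h i h1
  · have : i = c := Fin.ext (by omega)
    rw [this]; exact hc

theorem tr_tr {m n : ℕ} (h : m ≤ n) (u : Fin q → ℕ) : tr m (tr n u) = tr m u := by
  funext i
  by_cases hi : (i : ℕ) < m
  · have : (i : ℕ) < n := by omega
    simp [tr, hi, this]
  · simp [tr, hi]

/-- `E` contains exactly one element in each child class of one class of depth `n` -/
structure IsTr (L : Finset (Fin q → ℕ)) (n : ℕ) (E : Finset (Fin q → ℕ)) : Prop where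
  sub : E ⊆ L
  ne : E.Nonempty
  same : ∀ u ∈ E, ∀ u' ∈ E, agr n u u'
  inj : ∀ u ∈ E, ∀ u' ∈ E, agr (n + 1) u u' → u = u'
  hit : ∀ u ∈ E, ∀ v ∈ L, agr n v u → ∃ e ∈ E, agr (n + 1) e v

/-- building a transversal from a choice in each child class -/
theorem exists_isTr (L : Finset (Fin q → ℕ)) (n : ℕ) (u : Fin q → ℕ) (hu : u ∈ L)
    (Pr : (Fin q → ℕ) → Prop) (h : ∀ v ∈ L, ∃ x ∈ L, agr (n + 1) x v ∧ Pr x) :
    ∃ E, IsTr L n E ∧ (∀ x ∈ E, Pr x ∧ agr n x u) ∧
      E.card = ((L.filter (fun v => agr n v u)).image (tr (n + 1))).card := by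
  classical
  set C := (L.filter (fun v => agr n v u)).image (tr (n + 1)) with hC
  have hmem : ∀ ρ ∈ C, ∃ x ∈ L, tr (n + 1) x = ρ ∧ Pr x ∧ agr n x u := by
    intro ρ hρ
    obtain ⟨v, hv, rfl⟩ := Finset.mem_image.1 hρ
    obtain ⟨hvL, hvu⟩ := Finset.mem_filter.1 hv
    obtain ⟨x, hx, hxv, hPr⟩ := h v hvL
    exact ⟨x, hx, tr_eq_iff.2 hxv, hPr, (hxv.mono (Nat.le_succ n)).trans hvu⟩
  choose! f hfL hftr hfPr hfu using hmem
  refine ⟨C.image f, ⟨?_, ?_, ?_, ?_, ?_⟩, ?_, ?_⟩
  · intro x hx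
    obtain ⟨ρ, hρ, rfl⟩ := Finset.mem_image.1 hx
    exact hfL ρ hρ
  · exact ⟨f (tr (n + 1) u), Finset.mem_image_of_mem _
      (Finset.mem_image_of_mem _ (Finset.mem_filter.2 ⟨hu, agr.refl _ _⟩))⟩
  · intro x hx x' hx'
    obtain ⟨ρ, hρ, rfl⟩ := Finset.mem_image.1 hx
    obtain ⟨ρ', hρ', rfl⟩ := Finset.mem_image.1 hx'
    exact (hfu ρ hρ).trans (hfu ρ' hρ').symm
  · intro x hx x' hx' hagr
    obtain ⟨ρ, hρ, rfl⟩ := Finset.mem_image.1 hx
    obtain ⟨ρ', hρ', rfl⟩ := Finset.mem_image.1 hx'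
    have : ρ = ρ' := by
      rw [← hftr ρ hρ, ← hftr ρ' hρ']
      exact tr_eq_iff.2 hagr
    rw [this]
  · intro x hx v hv hvx
    obtain ⟨ρ, hρ, rfl⟩ := Finset.mem_image.1 hx
    have hvC : tr (n + 1) v ∈ C :=
      Finset.mem_image_of_mem _ (Finset.mem_filter.2 ⟨hv, hvx.trans (hfu ρ hρ)⟩)
    exact ⟨f (tr (n + 1) v), Finset.mem_image_of_mem _ hvC, tr_eq_iff.1 (hftr _ hvC)⟩
  · intro x hx
    obtain ⟨ρ, hρ, rfl⟩ := Finset.mem_image.1 hx
    exact ⟨hfPr ρ hρ, hfu ρ hρ⟩
  · apply Finset.card_image_of_injOn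
    intro ρ hρ ρ' hρ' hff
    rw [← hftr ρ hρ, ← hftr ρ' hρ', hff]

/-- some position is awaited for every colour -/
theorem select (L : Finset (Fin q → ℕ)) (hL : L.Nonempty)
    (aw : Fin q → Finset (Fin q → ℕ) → (Fin q → ℕ))
    (haw : ∀ (i : Fin q) E, IsTr L i E → aw i E ∈ E) :
    ∃ x ∈ L, ∀ i : Fin q, ∃ E, IsTr L i E ∧ aw i E = x := by
  have key : ∀ d n : ℕ, n + d = q → ∀ u ∈ L, ∃ x ∈ L, agr n x u ∧
      ∀ i : Fin q, n ≤ (i : ℕ) → ∃ E, IsTr L i E ∧ aw i E = x := by
    intro d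
    induction d with
    | zero =>
      intro n hn u hu
      exact ⟨u, hu, agr.refl _ _, fun i hi => absurd i.2 (by omega)⟩
    | succ d ih =>
      intro n hn u hu
      obtain ⟨E, hE, hEP, _⟩ := exists_isTr L n u hu
        (fun x => ∀ i : Fin q, n + 1 ≤ (i : ℕ) → ∃ E, IsTr L i E ∧ aw i E = x)
        (ih (n + 1) (by omega))
      have hx := haw ⟨n, by omega⟩ E hE
      refine ⟨aw ⟨n, by omega⟩ E, hE.sub hx, (hEP _ hx).2, ?_⟩
      intro i hi
      rcases hi.eq_or_lt with h | h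
      · have : i = ⟨n, by omega⟩ := Fin.ext h.symm
        rw [this]
        exact ⟨E, hE, rfl⟩
      · exact (hEP _ hx).1 i h
  obtain ⟨u, hu⟩ := hL
  obtain ⟨x, hx, _, h⟩ := key q 0 (by omega) u hu
  exact ⟨x, hx, fun i => h i (Nat.zero_le _)⟩

/-- number of classes of depth `n` -/
def Rn (L : Finset (Fin q → ℕ)) (n : ℕ) : ℕ := (L.image (tr n)).card

theorem Rn_le (L : Finset (Fin q → ℕ)) (k : ℕ)
    (h : ∀ (i : Fin q) E, IsTr L i E → E.card ≤ k) (n : ℕ) (hn : n ≤ q) : Rn L n ≤ k ^ n := by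
  classical
  induction n with
  | zero =>
    unfold Rn
    rw [pow_zero]
    apply Finset.card_le_one.2
    intro a ha b hb
    obtain ⟨u, _, rfl⟩ := Finset.mem_image.1 ha
    obtain ⟨u', _, rfl⟩ := Finset.mem_image.1 hb
    exact tr_eq_iff.2 (agr_zero _ _)
  | succ n ih =>
    have ih := ih (by omega)
    have h1 : (L.image (tr (n + 1))).card ≤ k * ((L.image (tr (n + 1))).image (tr n)).card := by
      apply Finset.card_le_mul_card_image
      intro a ha
      obtain ⟨ρ, hρ, rfl⟩ := Finset.mem_image.1 ha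
      obtain ⟨u, hu, rfl⟩ := Finset.mem_image.1 hρ
      obtain ⟨E, hE, _, hcard⟩ := exists_isTr L n u hu (fun _ => True)
        (fun v hv => ⟨v, hv, agr.refl _ _, trivial⟩)
      have h2 := h ⟨n, by omega⟩ E hE
      rw [hcard] at h2
      refine le_trans (Finset.card_le_card ?_) h2
      intro b hb
      obtain ⟨hb1, hb2⟩ := Finset.mem_filter.1 hb
      obtain ⟨v, hv, rfl⟩ := Finset.mem_image.1 hb1
      rw [tr_tr (Nat.le_succ n), tr_tr (Nat.le_succ n)] at hb2
      exact Finset.mem_image_of_mem _ (Finset.mem_filter.2 ⟨hv, tr_eq_iff.1 hb2⟩)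
    have h3 : (L.image (tr (n + 1))).image (tr n) = L.image (tr n) := by
      rw [Finset.image_image]
      apply Finset.image_congr
      intro u _
      exact tr_tr (Nat.le_succ n) u
    rw [h3] at h1
    unfold Rn at *
    calc (L.image (tr (n + 1))).card ≤ k * (L.image (tr n)).card := h1
      _ ≤ k * k ^ n := Nat.mul_le_mul_left k ih
      _ = k ^ (n + 1) := by ring

/-- the set of live addresses after splitting position `x` of the transversal `E` -/
def upd (L : Finset (Fin q → ℕ)) (c : ℕ) (E : Finset (Fin q → ℕ)) (x x₁ : Fin q → ℕ) :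
    Finset (Fin q → ℕ) :=
  insert x₁ (L.filter (fun u => ¬ agr c u x) ∪ E)

/-- the parent of an address -/
def par (x x₁ : Fin q → ℕ) (u : Fin q → ℕ) : Fin q → ℕ := if u = x₁ then x else u

/-- the situation of a split: `x₁` is a new address next to `x` -/
structure Spl (L : Finset (Fin q → ℕ)) (c : Fin q) (E : Finset (Fin q → ℕ)) (x x₁ : Fin q → ℕ) :
    Prop where
  isTr : IsTr L c E
  mem : x ∈ E
  agr1 : agr c x₁ x
  rest : ∀ i, i ≠ c → x₁ i = x i
  fresh : ∀ u ∈ L, u c ≠ x₁ c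

theorem Spl.exists (L : Finset (Fin q → ℕ)) (c : Fin q) (E : Finset (Fin q → ℕ)) (x : Fin q → ℕ)
    (hE : IsTr L c E) (hx : x ∈ E) : ∃ x₁, Spl L c E x x₁ := by
  obtain ⟨m, hm⟩ := (L.image (fun u => u c)).exists_notMem
  refine ⟨Function.update x c m, hE, hx, ?_, ?_, ?_⟩
  · intro i hi
    rw [Function.update_of_ne (fun h => by rw [h] at hi; exact lt_irrefl _ hi)]
  · intro i hi
    rw [Function.update_of_ne hi]
  · intro u hu h
    rw [Function.update_self] at h
    exact hm (Finset.mem_image.2 ⟨u, hu, h⟩)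

variable {L : Finset (Fin q → ℕ)} {c : Fin q} {E : Finset (Fin q → ℕ)} {x x₁ : Fin q → ℕ}

theorem Spl.notMem (h : Spl L c E x x₁) : x₁ ∉ L := fun h1 => h.fresh x₁ h1 rfl

theorem Spl.not_agr (h : Spl L c E x x₁) (u : Fin q → ℕ) (hu : u ∈ L) : ¬ agr ((c : ℕ) + 1) x₁ u :=
  fun h1 => h.fresh u hu (h1 c (Nat.lt_succ_self _)).symm

theorem Spl.mem_upd (h : Spl L c E x x₁) (u : Fin q → ℕ) :
    u ∈ upd L c E x x₁ ↔ u = x₁ ∨ (u ∈ L ∧ ¬ agr c u x) ∨ u ∈ E := by
  unfold upd
  rw [Finset.mem_insert, Finset.mem_union, Finset.mem_filter]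

theorem Spl.mem_L (h : Spl L c E x x₁) (u : Fin q → ℕ) (hu : u ∈ upd L c E x x₁) (hne : u ≠ x₁) :
    u ∈ L := by
  rcases (h.mem_upd u).1 hu with h1 | h1 | h1
  · exact absurd h1 hne
  · exact h1.1
  · exact h.isTr.sub h1

/-- two live addresses of the split region which agree up to `c` are equal -/
theorem Spl.region_inj (h : Spl L c E x x₁) (u u' : Fin q → ℕ) (hu : u ∈ upd L c E x x₁)
    (hu' : u' ∈ upd L c E x x₁) (hx : agr c u x) (hagr : agr ((c : ℕ) + 1) u u') : u = u' := by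
  have hx' : agr c u' x := (hagr.mono (Nat.le_succ _)).symm.trans hx
  by_cases h1 : u = x₁
  · by_cases h2 : u' = x₁
    · rw [h1, h2]
    · rw [h1] at hagr
      exact absurd hagr (h.not_agr u' (h.mem_L u' hu' h2))
  · by_cases h2 : u' = x₁
    · rw [h2] at hagr
      exact absurd hagr.symm (h.not_agr u (h.mem_L u hu h1))
    · have e1 : u ∈ E := by
        rcases (h.mem_upd u).1 hu with h3 | h3 | h3
        · exact absurd h3 h1
        · exact absurd hx h3.2
        · exact h3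
      have e2 : u' ∈ E := by
        rcases (h.mem_upd u').1 hu' with h3 | h3 | h3
        · exact absurd h3 h2
        · exact absurd hx' h3.2
        · exact h3
      exact h.isTr.inj u e1 u' e2 hagr

theorem Spl.par_agr (h : Spl L c E x x₁) (n : ℕ) (hn : n ≤ c) (u : Fin q → ℕ) :
    agr n (par x x₁ u) u := by
  unfold par
  split_ifs with h1
  · rw [h1]; exact (h.agr1.mono hn).symm
  · exact agr.refl _ _

/-- transversals of smaller depth -/
theorem Spl.isTr_lt (h : Spl L c E x x₁) (n : ℕ) (hn : n < c) (E' : Finset (Fin q → ℕ))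
    (hE' : IsTr (upd L c E x x₁) n E') : IsTr L n (E'.image (par x x₁)) := by
  have hxL : x ∈ L := h.isTr.sub h.mem
  have hxupd : x ∈ upd L c E x x₁ := (h.mem_upd x).2 (Or.inr (Or.inr h.mem))
  refine ⟨?_, ?_, ?_, ?_, ?_⟩
  · intro u hu
    obtain ⟨u', hu', rfl⟩ := Finset.mem_image.1 hu
    unfold par
    split_ifs with h1
    · exact hxL
    · exact h.mem_L u' (hE'.sub hu') h1
  · exact hE'.ne.image _
  · intro u hu v hv
    obtain ⟨u', hu', rfl⟩ := Finset.mem_image.1 hu
    obtain ⟨v', hv', rfl⟩ := Finset.mem_image.1 hv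
    exact ((h.par_agr n hn.le u').trans (hE'.same u' hu' v' hv')).trans (h.par_agr n hn.le v').symm
  · intro u hu v hv huv
    obtain ⟨u', hu', rfl⟩ := Finset.mem_image.1 hu
    obtain ⟨v', hv', rfl⟩ := Finset.mem_image.1 hv
    rw [hE'.inj u' hu' v' hv'
      (((h.par_agr (n + 1) hn u').symm.trans huv).trans (h.par_agr (n + 1) hn v'))]
  · intro u hu v hv hvu
    obtain ⟨u', hu', rfl⟩ := Finset.mem_image.1 hu
    have hvu' : agr n v u' := hvu.trans (h.par_agr n hn.le u')
    by_cases hvx : agr c v x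
    · have h1 : agr n x u' := (hvx.mono hn.le).symm.trans hvu'
      obtain ⟨e, he, hex⟩ := hE'.hit u' hu' x hxupd h1
      exact ⟨par x x₁ e, Finset.mem_image_of_mem _ he,
        ((h.par_agr (n + 1) hn e).trans hex).trans (hvx.mono hn).symm⟩
    · have hvupd : v ∈ upd L c E x x₁ := (h.mem_upd v).2 (Or.inr (Or.inl ⟨hv, hvx⟩))
      obtain ⟨e, he, hev⟩ := hE'.hit u' hu' v hvupd hvu'
      exact ⟨par x x₁ e, Finset.mem_image_of_mem _ he, (h.par_agr (n + 1) hn e).trans hev⟩

/-- the transversal of the split region -/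
theorem Spl.isTr_eq (h : Spl L c E x x₁) (E' : Finset (Fin q → ℕ))
    (hE' : IsTr (upd L c E x x₁) c E') (u : Fin q → ℕ) (hu : u ∈ E') (hux : agr c u x) :
    E' = insert x₁ E := by
  have hEreg : ∀ e ∈ E, agr c e x := fun e he => h.isTr.same e he x h.mem
  apply Finset.Subset.antisymm
  · intro v hv
    have hvx : agr c v x := (hE'.same v hv u hu).trans hux
    rcases (h.mem_upd v).1 (hE'.sub hv) with h3 | h3 | h3
    · rw [h3]; exact Finset.mem_insert_self _ _
    · exact absurd hvx h3.2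
    · exact Finset.mem_insert_of_mem h3
  · intro v hv
    have hvupd : v ∈ upd L c E x x₁ := by
      rcases Finset.mem_insert.1 hv with h1 | h1
      · exact (h.mem_upd v).2 (Or.inl h1)
      · exact (h.mem_upd v).2 (Or.inr (Or.inr h1))
    have hvx : agr c v x := by
      rcases Finset.mem_insert.1 hv with h1 | h1
      · rw [h1]; exact h.agr1
      · exact hEreg v h1
    obtain ⟨e, he, hev⟩ := hE'.hit u hu v hvupd (hvx.trans hux.symm)
    have : v = e := h.region_inj v e hvupd (hE'.sub he) hvx hev.symm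
    rw [this]; exact he

/-- transversals of larger depth in the split region are singletons -/
theorem Spl.isTr_gt (h : Spl L c E x x₁) (n : ℕ) (hn : (c : ℕ) < n) (E' : Finset (Fin q → ℕ))
    (hE' : IsTr (upd L c E x x₁) n E') (u : Fin q → ℕ) (hu : u ∈ E') (hux : agr c u x) :
    E' = {u} := by
  apply Finset.Subset.antisymm
  · intro v hv
    rw [Finset.mem_singleton]
    exact (h.region_inj u v (hE'.sub hu) (hE'.sub hv) hux
      ((hE'.same u hu v hv).mono hn)).symm
  · rw [Finset.singleton_subset_iff]; exact hu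

/-- transversals outside the split region -/
theorem Spl.isTr_out (h : Spl L c E x x₁) (n : ℕ) (hn : (c : ℕ) ≤ n) (E' : Finset (Fin q → ℕ))
    (hE' : IsTr (upd L c E x x₁) n E') (hout : ∀ u ∈ E', ¬ agr c u x) : IsTr L n E' := by
  refine ⟨?_, hE'.ne, hE'.same, hE'.inj, ?_⟩
  · intro u hu
    apply h.mem_L u (hE'.sub hu)
    rintro rfl
    exact hout u hu h.agr1
  · intro u hu v hv hvu
    have hvx : ¬ agr c v x := fun h1 => hout u hu ((hvu.mono hn).symm.trans h1)
    exact hE'.hit u hu v ((h.mem_upd v).2 (Or.inr (Or.inl ⟨hv, hvx⟩))) hvu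

theorem Spl.image_sub (h : Spl L c E x x₁) (n : ℕ) (hn : n ≤ (c : ℕ) + 1) :
    L.image (tr n) ⊆ (upd L c E x x₁).image (tr n) := by
  intro ρ hρ
  obtain ⟨u, hu, rfl⟩ := Finset.mem_image.1 hρ
  by_cases hux : agr c u x
  · obtain ⟨e, he, heu⟩ := h.isTr.hit x h.mem u hu hux
    rw [Finset.mem_image]
    exact ⟨e, (h.mem_upd e).2 (Or.inr (Or.inr he)), tr_eq_iff.2 (heu.mono hn)⟩
  · exact Finset.mem_image_of_mem _ ((h.mem_upd u).2 (Or.inr (Or.inl ⟨hu, hux⟩)))

theorem Spl.Rn_le (h : Spl L c E x x₁) (n : ℕ) (hn : n ≤ (c : ℕ)) :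
    Rn L n ≤ Rn (upd L c E x x₁) n :=
  Finset.card_le_card (h.image_sub n (by omega))

theorem Spl.Rn_lt (h : Spl L c E x x₁) : Rn L ((c : ℕ) + 1) < Rn (upd L c E x x₁) ((c : ℕ) + 1) := by
  apply Finset.card_lt_card
  refine ⟨h.image_sub _ le_rfl, ?_⟩
  intro hsub
  have h1 : tr ((c : ℕ) + 1) x₁ ∈ (upd L c E x x₁).image (tr ((c : ℕ) + 1)) :=
    Finset.mem_image_of_mem _ ((h.mem_upd x₁).2 (Or.inl rfl))
  obtain ⟨u, hu, he⟩ := Finset.mem_image.1 (hsub h1)
  exact h.not_agr u hu (tr_eq_iff.1 he).symm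

/-- Horner scheme -/
def hor (B : ℕ) (g : ℕ → ℕ) : ℕ → ℕ
  | 0 => 0
  | n + 1 => hor B g n * B + g n

theorem hor_le (B : ℕ) (g g' : ℕ → ℕ) (n : ℕ) (h : ∀ i, i < n → g' i ≤ g i) :
    hor B g' n ≤ hor B g n := by
  induction n with
  | zero => exact le_refl _
  | succ n ih =>
    unfold hor
    exact Nat.add_le_add (Nat.mul_le_mul_right B (ih (fun i hi => h i (by omega)))) (h n (by omega))

theorem hor_lt (B : ℕ) (g g' : ℕ → ℕ) (n c : ℕ) (hc : c < n) (h : ∀ i, i < c → g' i ≤ g i)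
    (h' : g' c < g c) (hB : ∀ i, i < n → g' i < B) : hor B g' n < hor B g n := by
  induction n with
  | zero => exact absurd hc (Nat.not_lt_zero _)
  | succ n ih =>
    unfold hor
    rcases Nat.lt_succ_iff_lt_or_eq.1 hc with h1 | h1
    · have h2 := ih h1 (fun i hi => hB i (by omega))
      have h3 : (hor B g' n + 1) * B ≤ hor B g n * B := Nat.mul_le_mul_right B h2
      have h4 := hB n (by omega)
      rw [Nat.add_mul, Nat.one_mul] at h3
      omega
    · subst h1
      have h2 := hor_le B g g' c h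
      have h3 := Nat.mul_le_mul_right B h2
      omega

/-- the rank of a set of live addresses -/
def rank (k : ℕ) (L : Finset (Fin q → ℕ)) : ℕ :=
  hor (k ^ q + 1) (fun i => k ^ (i + 1) - Rn L (i + 1)) q

/-- a bound for all ranks -/
def rankMax (k q : ℕ) : ℕ := hor (k ^ q + 1) (fun i => k ^ (i + 1)) q

theorem rank_le (k : ℕ) (L : Finset (Fin q → ℕ)) : rank k L ≤ rankMax k q :=
  hor_le _ _ _ _ (fun _ _ => Nat.sub_le _ _)

theorem Spl.rank_lt (h : Spl L c E x x₁) (k : ℕ) (hk : 1 ≤ k)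
    (hL : ∀ (i : Fin q) E', IsTr (upd L c E x x₁) i E' → E'.card ≤ k) :
    rank k (upd L c E x x₁) < rank k L := by
  apply hor_lt _ _ _ q c c.2
  · intro i hi
    have := h.Rn_le (i + 1) (by omega)
    omega
  · have h1 := h.Rn_lt
    have h2 := Pool.Agent.helper890_gap.Rn_le (upd L c E x x₁) k hL ((c : ℕ) + 1) c.2
    omega
  · intro i hi
    have : k ^ (i + 1) ≤ k ^ q := Nat.pow_le_pow_right hk hi
    omega

end

end Pool.Agent.helper890_gap
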