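import Pool.Agent.helper890_gap.Split
import Pool.Agent.helper890_gap.Emb
import Pool.Agent.helper890_gap.Tree

/-!
The states of the search, and the steps.
-/

set_option autoImplicit false
set_option linter.unusedSectionVars false
set_option linter.unusedVariables false

namespace Pool.Agent.helper890_gap

open Finset

/-- the ranks of the gaps are a permutation -/
structure GoodRk (t : ℕ) (rk : ℕ → ℕ) : Prop where
  inj : ∀ g g', g + 1 < t → g' + 1 < t → rk g = rk g' → g = g'
  lt : ∀ g, g + 1 < t → rk g + 1 < t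
  surj : ∀ J, J + 1 < t → ∃ g, g + 1 < t ∧ rk g = J

/-- the desired clique -/
def Goal {q : ℕ} (N t : ℕ) (rk : ℕ → ℕ) (F : ℕ → ℕ → Fin q) : Prop :=
  ∃ (a : ℕ → ℕ) (c : Fin q), (∀ i, i + 1 < t → a i < a (i + 1)) ∧ (∀ i, i < t → a i < N) ∧
    (∀ i j, i < j → j < t → F (a i) (a j) = c) ∧
    (∀ g g', g + 1 < t → g' + 1 < t → rk g < rk g' → a (g' + 1) - a g' < a (g + 1) - a g)

/-- a state of the search -/
structure State {q : ℕ} {ι : Type} [Fintype ι] [DecidableEq ι] (N t : ℕ) (rk : ℕ → ℕ)
    (F : ℕ → ℕ → Fin q) (col : ι → ι → Fin q) (v : ℕ) (A : ι → Finset ℕ)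
    (L : Finset (Fin q → ℕ)) (pos : (Fin q → ℕ) → ι) (J : Fin q → Finset (Fin q → ℕ) → ℕ) : Prop where
  rng : ∀ i, ∀ a ∈ A i, a < N
  hull : ∀ i, ∃ b, A i ⊆ Finset.Ico b (b + 3 ^ v)
  ne : L.Nonempty
  inj : ∀ u ∈ L, ∀ u' ∈ L, pos u = pos u' → u = u'
  colok : ∀ u ∈ L, ∀ u' ∈ L, ∀ i : Fin q, agr (i : ℕ) u u' → ¬ agr ((i : ℕ) + 1) u u' →
    col (pos u) (pos u') = i
  emb : ∀ (i : Fin q) (E : Finset (Fin q → ℕ)), IsTr L i E →
    ∃ w, REmb N t rk F i (J i E) v (fun u => A (pos u)) E w

section

variable {q : ℕ} {ι : Type} [Fintype ι] [DecidableEq ι] {N t : ℕ} {rk : ℕ → ℕ}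
    {F : ℕ → ℕ → Fin q} {col : ι → ι → Fin q} {v : ℕ} {A : ι → Finset ℕ}
    {L : Finset (Fin q → ℕ)} {pos : (Fin q → ℕ) → ι} {J : Fin q → Finset (Fin q → ℕ) → ℕ}

theorem State.refine (h : State N t rk F col v A L pos J) (v' : ℕ) (hv : v' ≤ v)
    (A' : ι → Finset ℕ) (hA : ∀ i, A' i ⊆ A i)
    (hh : ∀ i, ∃ b, A' i ⊆ Finset.Ico b (b + 3 ^ v')) : State N t rk F col v' A' L pos J where
  rng := fun i a ha => h.rng i a (hA i ha)
  hull := hh
  ne := h.ne
  inj := h.inj
  colok := h.colok
  emb := by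
    intro i E hE
    obtain ⟨w, hw⟩ := h.emb i E hE
    exact ⟨w, hw.refine v' hv _ (fun l _ => hA (pos l))⟩

/-- the update of the stages after a minor step -/
def Jup (J : Fin q → Finset (Fin q → ℕ) → ℕ) (c : Fin q) (E : Finset (Fin q → ℕ)) :
    Fin q → Finset (Fin q → ℕ) → ℕ :=
  fun i E' => if i = c ∧ E' = E then J c E + 1 else J i E'

theorem State.minor (h : State N t rk F col (v + 1) A L pos J)
    (A' : ι → Finset ℕ) (hA : ∀ i, A' i ⊆ A i)
    (hh : ∀ i, ∃ b, A' i ⊆ Finset.Ico b (b + 3 ^ v)) (c : Fin q) (E : Finset (Fin q → ℕ))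
    (w : ℕ → ℕ ⊕ (Fin q → ℕ)) (hw : REmb N t rk F c (J c E + 1) v (fun u => A' (pos u)) E w) :
    State N t rk F col v A' L pos (Jup J c E) where
  rng := fun i a ha => h.rng i a (hA i ha)
  hull := hh
  ne := h.ne
  inj := h.inj
  colok := h.colok
  emb := by
    intro i E' hE'
    by_cases hc : i = c ∧ E' = E
    · obtain ⟨h1, h2⟩ := hc
      refine ⟨w, ?_⟩
      have : Jup J c E i E' = J c E + 1 := if_pos ⟨h1, h2⟩
      rw [this, h1, h2]
      exact hw
    · obtain ⟨w', hw'⟩ := h.emb i E' hE'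
      refine ⟨w', ?_⟩
      have : Jup J c E i E' = J i E' := if_neg hc
      rw [this]
      exact hw'.refine v (Nat.le_succ v) _ (fun l _ => hA (pos l))

/-- the remaining number of minor steps -/
def mu (t : ℕ) (L : Finset (Fin q → ℕ)) (J : Fin q → Finset (Fin q → ℕ) → ℕ) : ℕ :=
  ∑ i : Fin q, ∑ E ∈ L.powerset, (t - J i E)

theorem mu_le (t : ℕ) (L : Finset (Fin q → ℕ)) (J : Fin q → Finset (Fin q → ℕ) → ℕ) (m : ℕ)
    (hm : L.card ≤ m) : mu t L J ≤ q * 2 ^ m * t := by
  unfold mu
  have h1 : ∀ i : Fin q, ∑ E ∈ L.powerset, (t - J i E) ≤ 2 ^ m * t := by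
    intro i
    calc ∑ E ∈ L.powerset, (t - J i E) ≤ L.powerset.card • t :=
          Finset.sum_le_card_nsmul _ _ _ (fun E _ => Nat.sub_le _ _)
      _ = 2 ^ L.card * t := by rw [Finset.card_powerset, smul_eq_mul]
      _ ≤ 2 ^ m * t := Nat.mul_le_mul_right _ (Nat.pow_le_pow_right (by norm_num) hm)
  calc ∑ i : Fin q, ∑ E ∈ L.powerset, (t - J i E) ≤ (Finset.univ : Finset (Fin q)).card • (2 ^ m * t) :=
        Finset.sum_le_card_nsmul _ _ _ (fun i _ => h1 i)
    _ = q * 2 ^ m * t := by rw [Finset.card_univ, Fintype.card_fin, smul_eq_mul]; ring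

theorem mu_Jup (t : ℕ) (L : Finset (Fin q → ℕ)) (J : Fin q → Finset (Fin q → ℕ) → ℕ) (c : Fin q)
    (E : Finset (Fin q → ℕ)) (hE : E ⊆ L) (hJ : J c E < t) :
    mu t L (Jup J c E) + 1 ≤ mu t L J := by
  unfold mu
  have hle : ∀ i E', t - Jup J c E i E' ≤ t - J i E' := by
    intro i E'
    unfold Jup
    split_ifs with h
    · rw [h.1, h.2]; omega
    · exact le_refl _
  have hlt : ∑ E' ∈ L.powerset, (t - Jup J c E c E') < ∑ E' ∈ L.powerset, (t - J c E') := by
    apply Finset.sum_lt_sum (fun E' _ => hle c E')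
    refine ⟨E, Finset.mem_powerset.2 hE, ?_⟩
    unfold Jup
    rw [if_pos ⟨rfl, rfl⟩]
    omega
  exact Finset.sum_lt_sum (fun i _ => Finset.sum_le_sum (fun E' _ => hle i E'))
    ⟨c, Finset.mem_univ _, hlt⟩

theorem State.card_le (h : State N t rk F col v A L pos J) : L.card ≤ Fintype.card ι := by
  rw [← Finset.card_univ]
  exact Finset.card_le_card_of_injOn pos (fun _ _ => Finset.mem_coe.2 (Finset.mem_univ _))
    (fun u hu u' hu' huu => h.inj u hu u' hu' huu)

theorem State.tr_card (h : State N t rk F col v A L pos J) (hrk : GoodRk t rk) (i : Fin q)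
    (E : Finset (Fin q → ℕ)) (hE : IsTr L i E) : E.card ≤ (LM t rk).card := by
  obtain ⟨w, hw⟩ := h.emb i E hE
  exact hw.card_le hrk.inj

/-- colours inside a transversal -/
theorem State.col_tr (h : State N t rk F col v A L pos J) (i : Fin q) (E : Finset (Fin q → ℕ))
    (hE : IsTr L i E) (u u' : Fin q → ℕ) (hu : u ∈ E) (hu' : u' ∈ E) (hne : u ≠ u') :
    pos u ≠ pos u' ∧ col (pos u) (pos u') = i :=
  ⟨fun h1 => hne (h.inj u (hE.sub hu) u' (hE.sub hu') h1),
    h.colok u (hE.sub hu) u' (hE.sub hu') i (hE.same u hu u' hu')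
      (fun h1 => hne (hE.inj u hu u' hu' h1))⟩

/-- a completed realisation gives the desired clique -/
theorem State.final (h : State N t rk F col v A L pos J) (hF : ∀ a b, F a b = F b a)
    (hrk : GoodRk t rk) (i : Fin q) (E : Finset (Fin q → ℕ)) (hE : IsTr L i E)
    (hJ : t ≤ J i E + 1) (hcnt : 0 < cnt (Right F col) A) : Goal N t rk F := by
  classical
  obtain ⟨w, hw⟩ := h.emb i E hE
  have hne : ((Fintype.piFinset A).filter (Right F col)).Nonempty := by
    rw [← Finset.card_pos]
    unfold cnt at hcnt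
    exact_mod_cast hcnt
  obtain ⟨s, hs⟩ := hne
  obtain ⟨hs1, hs2⟩ := Finset.mem_filter.1 hs
  rw [Fintype.mem_piFinset] at hs1
  set a : ℕ → ℕ := fun n => Sum.elim id (fun u => s (pos u)) (w n) with ha
  have hplc : ∀ n, a n ∈ plc (fun u => A (pos u)) (w n) := by
    intro n
    simp only [ha]
    rcases w n with b | l
    · simp [plc]
    · exact hs1 (pos l)
  have hpl : ∀ g, g + 1 < t → rk g < J i E := by
    intro g hg
    have := hrk.lt g hg
    omega
  have hmono : ∀ n, n + 1 < t → a n < a (n + 1) := by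
    intro n hn
    have h1 := hw.sep n hn (hpl n hn) (a n) (hplc n) (a (n + 1)) (hplc (n + 1))
    have h2 : 0 < 3 ^ v := by positivity
    omega
  have hmono' : ∀ m n, m < n → n < t → a m < a n := by
    intro m n hmn
    induction n with
    | zero => exact absurd hmn (Nat.not_lt_zero _)
    | succ n ih =>
      intro hn
      rcases Nat.lt_succ_iff_lt_or_eq.1 hmn with h1 | h1
      · exact (ih h1 (by omega)).trans (hmono n hn)
      · rw [h1]; exact hmono n hn
  refine ⟨a, i, hmono, ?_, ?_, ?_⟩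
  · intro n hn
    rcases hwn : w n with b | l
    · have : a n = b := by simp only [ha, hwn, Sum.elim_inl, id]
      rw [this]; exact hw.ver n b hn hwn
    · have : a n = s (pos l) := by simp only [ha, hwn, Sum.elim_inr]
      rw [this]; exact h.rng _ _ (hs1 (pos l))
  · intro m n hmn hn
    have hm : m < t := by omega
    rcases hwm : w m with b | l
    · have h1 : a m = b := by simp only [ha, hwm, Sum.elim_inl, id]
      rw [h1]
      exact hw.colv m n b hm hn hmn.ne hwm (a n) (hplc n)
    · rcases hwn : w n with b' | l'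
      · have h1 : a n = b' := by simp only [ha, hwn, Sum.elim_inl, id]
        rw [h1, hF]
        exact hw.colv n m b' hn hm hmn.ne' hwn (a m) (hplc m)
      · have h1 : a m = s (pos l) := by simp only [ha, hwm, Sum.elim_inr]
        have h2 : a n = s (pos l') := by simp only [ha, hwn, Sum.elim_inr]
        have hll : l ≠ l' := by
          rintro rfl
          have := hmono' m n hmn hn
          rw [h1, h2] at this
          exact lt_irrefl _ this
        obtain ⟨h3, h4⟩ := h.col_tr i E hE l l' (hw.labE m l hm hwm) (hw.labE n l' hn hwn) hll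
        rw [h1, h2, hs2 _ _ h3, h4]
  · intro g g' hg hg' hr
    have h1 := hw.ord g g' hg hg' hr (hpl g' hg') (a g) (hplc g) (a (g + 1)) (hplc (g + 1))
      (a g') (hplc g') (a (g' + 1)) (hplc (g' + 1))
    have h2 := hmono g hg
    have h3 := hmono g' hg'
    omega

/-- positions after a major step -/
def posO (pos : (Fin q → ℕ) → ι) (x₁ : Fin q → ℕ) (u : Fin q → ℕ) : Option ι :=
  if u = x₁ then none else some (pos u)

/-- a major step -/
theorem State.major (h : State N t rk F col (v + 1) A L pos J) (hrk : GoodRk t rk) (ht : 2 ≤ t)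
    (c : Fin q) (E : Finset (Fin q → ℕ)) (x x₁ : Fin q → ℕ) (hS : Spl L c E x x₁)
    (w : ℕ → ℕ ⊕ (Fin q → ℕ)) (hw : REmb N t rk F c (J c E) (v + 1) (fun u => A (pos u)) E w)
    (g : ℕ) (hg : g + 1 < t) (hr : rk g = J c E) (hw0 : w g = Sum.inr x) (hw1 : w (g + 1) = Sum.inr x)
    (hleft : ∃ h, h + 1 = g ∧ J c E ≤ rk h) (hright : g + 2 < t ∧ J c E ≤ rk (g + 1))
    (A' : Option ι → Finset ℕ) (hA : ∀ i, A' (some i) ⊆ A i) (hA0 : A' none ⊆ A (pos x))
    (hh : ∀ j, ∃ b', A' j ⊆ Finset.Ico b' (b' + 3 ^ v))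
    (hsep : ∀ y ∈ A' (some (pos x)), ∀ y' ∈ A' none, y + 3 ^ v ≤ y') :
    ∃ J', State N t rk F (ocol col (pos x) c) v A' (upd L c E x x₁) (posO pos x₁) J' := by
  classical
  have hxL : x ∈ L := hS.isTr.sub hS.mem
  have hx1 : x ≠ x₁ := fun h1 => hS.notMem (h1 ▸ hxL)
  have hpos1 : posO pos x₁ x₁ = none := if_pos rfl
  have hposn : ∀ u, u ≠ x₁ → posO pos x₁ u = some (pos u) := fun u hu => if_neg hu
  -- the sets shrink
  have hsub : ∀ u, A' (posO pos x₁ u) ⊆ A (pos (par x x₁ u)) := by
    intro u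
    by_cases hu : u = x₁
    · rw [hu, hpos1]; unfold par; rw [if_pos rfl]; exact hA0
    · rw [hposn u hu]; unfold par; rw [if_neg hu]; exact hA _
  have hsub' : ∀ u ∈ L, A' (posO pos x₁ u) ⊆ A (pos u) := by
    intro u hu
    have hne : u ≠ x₁ := fun h1 => hS.notMem (h1 ▸ hu)
    rw [hposn u hne]; exact hA _
  refine ⟨fun i E' => if (i : ℕ) < c then J i (E'.image (par x x₁)) else
    if (∃ u ∈ E', agr c u x) then (if i = c then J c E + 1 else 0) else J i E', ?_⟩
  constructor
  · intro j a ha
    cases j with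
    | none => exact h.rng _ a (hA0 ha)
    | some i => exact h.rng i a (hA i ha)
  · exact hh
  · exact ⟨x₁, (hS.mem_upd x₁).2 (Or.inl rfl)⟩
  · intro u hu u' hu' huu
    by_cases h1 : u = x₁
    · by_cases h2 : u' = x₁
      · rw [h1, h2]
      · rw [h1, hpos1, hposn u' h2] at huu; cases huu
    · by_cases h2 : u' = x₁
      · rw [h2, hpos1, hposn u h1] at huu; cases huu
      · rw [hposn u h1, hposn u' h2] at huu
        exact h.inj u (hS.mem_L u hu h1) u' (hS.mem_L u' hu' h2) (Option.some_injective _ huu)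
  · -- colours
    -- key facts for the new address
    have key : ∀ u ∈ upd L c E x x₁, u ≠ x₁ → ∀ i : Fin q, agr (i : ℕ) x₁ u →
        ¬ agr ((i : ℕ) + 1) x₁ u → (u = x → i = c) ∧
        (u ≠ x → agr (i : ℕ) x u ∧ ¬ agr ((i : ℕ) + 1) x u) := by
      intro u hu hne i h1 h2
      have huL : u ∈ L := hS.mem_L u hu hne
      have hic : (i : ℕ) ≤ c := by
        by_contra hcon
        push Not at hcon
        exact hS.not_agr u huL (h1.mono hcon)
      constructor
      · rintro rfl
        apply Fin.ext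
        by_contra hcon
        exact h2 (hS.agr1.mono (by omega))
      · intro hux
        have h3 : agr (i : ℕ) x u := (hS.agr1.mono hic).symm.trans h1
        refine ⟨h3, ?_⟩
        intro h4
        rcases hic.eq_or_lt with h5 | h5
        · rw [h5] at h3 h4
          have hux' : agr c u x := h3.symm
          rcases (hS.mem_upd u).1 hu with h6 | h6 | h6
          · exact hne h6
          · exact h6.2 hux'
          · exact hux (hS.isTr.inj x hS.mem u h6 h4).symm
        · exact h2 ((hS.agr1.mono h5).trans h4)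
    intro u hu u' hu' i h1 h2
    by_cases hu1 : u = x₁
    · by_cases hu2 : u' = x₁
      · rw [hu1, hu2] at h2; exact absurd (agr.refl _ _) h2
      · rw [hu1] at h1 h2
        obtain ⟨k1, k2⟩ := key u' hu' hu2 i h1 h2
        rw [hu1, hpos1, hposn u' hu2]
        simp only [ocol]
        by_cases hxx : u' = x
        · rw [if_pos (by rw [hxx])]; exact (k1 hxx).symm
        · rw [if_neg (fun h3 => hxx (h.inj u' (hS.mem_L u' hu' hu2) x hxL h3))]
          exact h.colok x hxL u' (hS.mem_L u' hu' hu2) i (k2 hxx).1 (k2 hxx).2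
    · by_cases hu2 : u' = x₁
      · rw [hu2] at h1 h2
        obtain ⟨k1, k2⟩ := key u hu hu1 i h1.symm (fun h3 => h2 h3.symm)
        rw [hu2, hpos1, hposn u hu1]
        simp only [ocol]
        by_cases hxx : u = x
        · rw [if_pos (by rw [hxx])]; exact (k1 hxx).symm
        · rw [if_neg (fun h3 => hxx (h.inj u (hS.mem_L u hu hu1) x hxL h3))]
          exact h.colok u (hS.mem_L u hu hu1) x hxL i (k2 hxx).1.symm
            (fun h3 => (k2 hxx).2 h3.symm)
      · rw [hposn u hu1, hposn u' hu2]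
        simp only [ocol]
        exact h.colok u (hS.mem_L u hu hu1) u' (hS.mem_L u' hu' hu2) i h1 h2
  · -- realisations
    intro i E' hE'
    by_cases hic : (i : ℕ) < c
    · simp only [if_pos hic]
      have hE0 := hS.isTr_lt i hic E' hE'
      obtain ⟨w0, hw0⟩ := h.emb i _ hE0
      set lift : (Fin q → ℕ) → (Fin q → ℕ) := fun u => if u = x ∧ x₁ ∈ E' then x₁ else u with hlift
      have hlp : ∀ u ∈ E', lift (par x x₁ u) = u := by
        intro u hu
        by_cases hu1 : u = x₁
        · have e1 : par x x₁ u = x := if_pos hu1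
          have e2 : lift x = x₁ := if_pos ⟨rfl, hu1 ▸ hu⟩
          rw [e1, e2, hu1]
        · have e1 : par x x₁ u = u := if_neg hu1
          rw [e1]
          refine if_neg ?_
          rintro ⟨h3, h4⟩
          have h5 : agr ((i : ℕ) + 1) u x₁ := by
            rw [h3]; exact (hS.agr1.mono hic).symm
          exact hu1 (hE'.inj u hu x₁ h4 h5)
      have himg : (E'.image (par x x₁)).image lift = E' := by
        rw [Finset.image_image]
        apply Finset.Subset.antisymm
        · intro u hu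
          obtain ⟨u', hu', rfl⟩ := Finset.mem_image.1 hu
          rw [Function.comp_apply, hlp u' hu']; exact hu'
        · intro u hu
          exact Finset.mem_image.2 ⟨u, hu, hlp u hu⟩
      have h3 := hw0.transport lift v (Nat.le_succ v) (fun u => A' (posO pos x₁ u)) (by
        intro l hl
        obtain ⟨u, hu, rfl⟩ := Finset.mem_image.1 hl
        rw [hlp u hu]
        exact hsub u)
      rw [himg] at h3
      exact ⟨_, h3⟩
    · simp only [if_neg hic]
      by_cases hreg : ∃ u ∈ E', agr c u x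
      · simp only [if_pos hreg]
        obtain ⟨u, hu, hux⟩ := hreg
        by_cases hicc : i = c
        · simp only [if_pos hicc]
          have hE'' : E' = insert x₁ E := by
            rw [hicc] at hE'
            exact hS.isTr_eq E' hE' u hu hux
          rw [hE'', hicc]
          obtain ⟨bb, hbb⟩ := h.hull (pos x)
          refine ⟨_, hw.major hrk.inj g hg hr x x₁ hw0 hw1 hleft hright
            (fun u => A' (posO pos x₁ u)) ?_ ?_ ?_ ?_⟩
          · intro l hl
            exact hsub' l (hS.isTr.sub hl)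
          · simp only [hpos1]; exact hA0
          · simp only [hpos1, hposn x hx1]
            exact hsep
          · intro y hy y' hy'
            have h3 := Finset.mem_Ico.1 (hbb hy)
            have h4 := Finset.mem_Ico.1 (hbb hy')
            omega
        · simp only [if_neg hicc]
          have hE'' : E' = {u} := by
            apply hS.isTr_gt i _ E' hE' u hu hux
            have : (i : ℕ) ≠ c := fun h3 => hicc (Fin.ext h3)
            omega
          rw [hE'']
          exact ⟨_, REmb.start N t ht rk F i v _ u⟩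
      · simp only [if_neg hreg]
        push Not at hreg
        have hE0 := hS.isTr_out i (by omega) E' hE' hreg
        obtain ⟨w0, hw0⟩ := h.emb i _ hE0
        exact ⟨w0, hw0.refine v (Nat.le_succ v) _ (fun l hl => hsub' l (hE0.sub hl))⟩

end

end Pool.Agent.helper890_gap
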